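import Pool.Agent.TH567.TEDefs

/-!
# Gluing of extenders (job 191, requested by helper567)
-/

set_option autoImplicit false
set_option linter.unusedVariables false

open Set Topology Filter Pool.Agent.TH567.TE

namespace Pool.Agent.TH624.J191

/-- gluing of extenders -/
theorem glue {Z : Type} [TopologicalSpace Z] [CompactSpace Z] {ι : Type} (T : Set Z) (D : ι → Set Z)
    (hT : IsClosed T) (hD : ∀ i, IsClopen (D i)) (hdisj : Pairwise (Function.onFun Disjoint D))
    (hTD : ∀ i, Disjoint T (D i)) (hcov : T ∪ ⋃ i, D i = univ) (F : Set Z) (hF : IsClosed F)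
    (C0 C : ℝ) (hC0 : 0 ≤ C0) (hC : 0 ≤ C)
    (h0 : TEmbB (F ∩ T) C0) (h1 : ∀ i, TEmbB (F ∩ D i) C) :
    TEmbB F (C0 + C * (1 + C0)) := by
  classical
  obtain ⟨φ0, c0, e0, b0⟩ := h0
  choose ψ cψ eψ bψ using h1
  -- restriction of a continuous function on `F` to `F ∩ T`
  let r0 : Cp F → Cp (F ∩ T : Set Z) := fun f =>
    ⟨fun x => f.1 ⟨x.1, x.2.1⟩, f.2.comp (by fun_prop)⟩
  have cr0 : Continuous r0 := by
    refine Continuous.subtype_mk (continuous_pi fun x => ?_) _
    exact (continuous_apply _).comp continuous_subtype_val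
  -- `h = f - g0` restricted to `F ∩ D i`
  let r : ∀ i, Cp F → Cp (F ∩ D i : Set Z) := fun i f =>
    ⟨fun x => f.1 ⟨x.1, x.2.1⟩ - (φ0 (r0 f)).1 x.1,
      (f.2.comp (by fun_prop)).sub ((φ0 (r0 f)).2.comp (by fun_prop))⟩
  have cr : ∀ i, Continuous (r i) := by
    intro i
    refine Continuous.subtype_mk (continuous_pi fun x => ?_) _
    refine Continuous.sub ((continuous_apply _).comp continuous_subtype_val) ?_
    exact (continuous_apply _).comp (continuous_subtype_val.comp (c0.comp cr0))
  -- the correction term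
  let G : Cp F → Z → ℝ := fun f z => if h : ∃ i, z ∈ D i then (ψ h.choose (r h.choose f)).1 z else 0
  have huniq : ∀ {i j : ι} {z : Z}, z ∈ D i → z ∈ D j → i = j := by
    intro i j z hi hj
    by_contra hne
    exact (Set.disjoint_left.1 (hdisj hne)) hi hj
  have GD : ∀ f i z, z ∈ D i → G f z = (ψ i (r i f)).1 z := by
    intro f i z hz
    have hex : ∃ i, z ∈ D i := ⟨i, hz⟩
    have hi : hex.choose = i := huniq hex.choose_spec hz
    simp only [G, dif_pos hex]
    rw [hi]
  have GT : ∀ f z, z ∈ T → G f z = 0 := by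
    intro f z hz
    have hne : ¬ ∃ i, z ∈ D i := by
      rintro ⟨i, hi⟩
      exact Set.disjoint_left.1 (hTD i) hz hi
    simp only [G, dif_neg hne]
  have hcases : ∀ z, z ∈ T ∨ ∃ i, z ∈ D i := by
    intro z
    have : z ∈ T ∪ ⋃ i, D i := by rw [hcov]; trivial
    rcases this with h | h
    · exact Or.inl h
    · exact Or.inr (by simpa using h)
  have Gcont : ∀ f, Continuous (G f) := by
    intro f
    rw [continuous_iff_continuousAt]
    intro z
    rcases hcases z with hz | ⟨i, hz⟩
    · -- a point of `T`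
      rw [Metric.continuousAt_iff']
      intro ε hε
      set ε' : ℝ := ε / (C + 1) with hε'
      have hε'0 : 0 < ε' := by positivity
      -- the set where `|h| ≥ ε'`
      let hh : F → ℝ := fun x => f.1 x - (φ0 (r0 f)).1 x.1
      have chh : Continuous hh := f.2.sub ((φ0 (r0 f)).2.comp continuous_subtype_val)
      let S : Set Z := Subtype.val '' {x : F | ε' ≤ |hh x|}
      have hSc : IsClosed {x : F | ε' ≤ |hh x|} := isClosed_le continuous_const chh.abs
      have hS : IsCompact S := by
        have h1 : IsClosed S := hF.isClosedEmbedding_subtypeVal.isClosedMap _ hSc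
        exact h1.isCompact
      have hSD : S ⊆ ⋃ i, D i := by
        rintro x ⟨y, hy, rfl⟩
        rcases hcases y.1 with h | h
        · exfalso
          have h2 : (φ0 (r0 f)).1 y.1 = f.1 y := e0 (r0 f) ⟨y.1, y.2, h⟩
          have h3 : hh y = 0 := by simp only [hh, h2, sub_self]
          have h4 : ε' ≤ |hh y| := hy
          rw [h3, abs_zero] at h4
          linarith
        · simpa using h
      obtain ⟨J, hJ⟩ := hS.elim_finite_subcover D (fun i => (hD i).isOpen) hSD
      have hN : IsOpen (⋃ i ∈ J, D i)ᶜ := by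
        rw [isOpen_compl_iff]
        exact isClosed_biUnion_finset (fun i _ => (hD i).isClosed)
      have hzN : z ∈ (⋃ i ∈ J, D i)ᶜ := by
        simp only [mem_compl_iff, mem_iUnion, not_exists]
        intro i _ hi
        exact Set.disjoint_left.1 (hTD i) hz hi
      filter_upwards [hN.mem_nhds hzN] with w hw
      rw [GT f z hz, dist_zero_right, Real.norm_eq_abs]
      rcases hcases w with hwT | ⟨i, hi⟩
      · rw [GT f w hwT, abs_zero]; exact hε
      · rw [GD f i w hi]
        have hiJ : i ∉ J := by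
          intro hiJ
          apply hw
          simp only [mem_iUnion]
          exact ⟨i, hiJ, hi⟩
        have hb : ∀ y, |(r i f).1 y| ≤ ε' := by
          intro y
          by_contra hcon
          push Not at hcon
          have hyS : y.1 ∈ S := ⟨⟨y.1, y.2.1⟩, hcon.le, rfl⟩
          have := hJ hyS
          simp only [mem_iUnion] at this
          obtain ⟨j, hjJ, hj⟩ := this
          exact hiJ (huniq y.2.2 hj ▸ hjJ)
        have h5 := bψ i (r i f) ε' hε'0.le hb w
        have h6 : C * ε' < ε := by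
          rw [hε', mul_div_assoc', div_lt_iff₀ (by linarith)]
          nlinarith
        linarith
    · have h2 : (ψ i (r i f)).1 =ᶠ[𝓝 z] G f := by
        filter_upwards [(hD i).isOpen.mem_nhds hz] with w hw
        exact (GD f i w hw).symm
      exact ((ψ i (r i f)).2.continuousAt).congr h2
  refine ⟨fun f => ⟨fun z => (φ0 (r0 f)).1 z + G f z, (φ0 (r0 f)).2.add (Gcont f)⟩, ?_, ?_, ?_⟩
  · refine Continuous.subtype_mk (continuous_pi fun z => ?_) _
    refine Continuous.add ((continuous_apply _).comp (continuous_subtype_val.comp (c0.comp cr0))) ?_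
    rcases hcases z with hz | ⟨i, hz⟩
    · simp only [GT _ z hz]
      exact continuous_const
    · simp only [GD _ i z hz]
      exact (continuous_apply _).comp (continuous_subtype_val.comp ((cψ i).comp (cr i)))
  · intro f y
    rcases hcases y.1 with hz | ⟨i, hz⟩
    · show (φ0 (r0 f)).1 y.1 + G f y.1 = f.1 y
      rw [GT f y.1 hz, add_zero]
      exact e0 (r0 f) ⟨y.1, y.2, hz⟩
    · show (φ0 (r0 f)).1 y.1 + G f y.1 = f.1 y
      rw [GD f i y.1 hz, eψ i (r i f) ⟨y.1, y.2, hz⟩]
      show (φ0 (r0 f)).1 y.1 + (f.1 ⟨y.1, y.2⟩ - (φ0 (r0 f)).1 y.1) = f.1 y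
      ring
  · intro f M hM hf z
    have h2 : ∀ z, |(φ0 (r0 f)).1 z| ≤ C0 * M := b0 (r0 f) M hM (fun y => hf ⟨y.1, y.2.1⟩)
    show |(φ0 (r0 f)).1 z + G f z| ≤ (C0 + C * (1 + C0)) * M
    have h3 : |G f z| ≤ C * (M + C0 * M) := by
      rcases hcases z with hz | ⟨i, hz⟩
      · rw [GT f z hz, abs_zero]
        positivity
      · rw [GD f i z hz]
        refine bψ i (r i f) (M + C0 * M) (by positivity) (fun y => ?_) z
        show |f.1 ⟨y.1, y.2.1⟩ - (φ0 (r0 f)).1 y.1| ≤ M + C0 * M
        calc _ ≤ |f.1 ⟨y.1, y.2.1⟩| + |(φ0 (r0 f)).1 y.1| := abs_sub _ _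
          _ ≤ _ := add_le_add (hf _) (h2 _)
    calc _ ≤ |(φ0 (r0 f)).1 z| + |G f z| := abs_add_le _ _
      _ ≤ C0 * M + C * (M + C0 * M) := add_le_add (h2 z) h3
      _ = _ := by ring

end Pool.Agent.TH624.J191
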