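import Pool.Agent.TH567.TEDefs

/-!
# Retractions onto countable closed sets (job 192, requested by helper567)
-/

set_option autoImplicit false

open Set Topology Filter Pool.Agent.TH567.TE

namespace Pool.Agent.TH624.J192

/-- retractions onto countable closed sets, subtype form -/
theorem exists_retr_sub {Z : Type} [TopologicalSpace Z] [CompactSpace Z] [T2Space Z]
    [TotallyDisconnectedSpace Z] (Y : Set Z) (hY : IsClosed Y) (hc : Y.Countable) (hne : Y.Nonempty) :
    ∃ ρ : Z → Y, Continuous ρ ∧ ∀ y : Y, ρ y.1 = y := by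
  classical
  have : Countable Y := hc.to_subtype
  have : Nonempty Y := hne.to_subtype
  -- clopen sets separating the points
  have hsep : ∀ p : Y × Y, ∃ U : Set Z, IsClopen U ∧ (p.1 ≠ p.2 → p.1.1 ∈ U ∧ p.2.1 ∉ U) := by
    intro p
    by_cases h : p.1 = p.2
    · exact ⟨∅, isClopen_empty, fun h' => absurd h h'⟩
    · obtain ⟨U, hU, h1, h2⟩ := exists_isClopen_of_totally_separated
        (fun h' => h (Subtype.ext h') : p.1.1 ≠ p.2.1)
      exact ⟨U, hU, fun _ => ⟨h1, h2⟩⟩
  choose U hU hUs using hsep
  obtain ⟨en, hen⟩ := exists_surjective_nat (Y × Y)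
  let e : Z → (∀ _ : ℕ, Bool) := fun z n => decide (z ∈ U (en n))
  have he : Continuous e := by
    refine continuous_pi fun n => ?_
    have h1 : IsLocallyConstant (fun z => decide (z ∈ U (en n))) := by
      rw [IsLocallyConstant.iff_exists_open]
      intro z
      by_cases hz : z ∈ U (en n)
      · exact ⟨U (en n), (hU _).isOpen, hz, fun w hw => by simp [hz, hw]⟩
      · exact ⟨(U (en n))ᶜ, (hU _).isClosed.isOpen_compl, hz, fun w hw => by
          have hw' : w ∉ U (en n) := hw
          simp [hz, hw']⟩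
    exact h1.continuous
  have : CompactSpace Y := isCompact_iff_compactSpace.1 hY.isCompact
  -- `e` is injective on `Y`
  let eY : Y → (∀ _ : ℕ, Bool) := fun y => e y.1
  have heY : Continuous eY := he.comp continuous_subtype_val
  have hinj : Function.Injective eY := by
    intro y y' h
    by_contra hne
    obtain ⟨n, hn⟩ := hen (y, y')
    have h1 := congrFun h n
    have h2 := hUs (y, y') hne
    simp only [eY, e, hn] at h1
    rw [decide_eq_decide] at h1
    exact h2.2 (h1.1 h2.1)
  have hemb : IsClosedEmbedding eY := heY.isClosedEmbedding hinj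
  obtain ⟨f, hf1, -, hf2⟩ := PiNat.exists_retraction_subtype_of_isClosed hemb.isClosed_range
    (range_nonempty eY)
  let hh : Y ≃ₜ range eY := hemb.isEmbedding.toHomeomorph
  refine ⟨fun z => hh.symm (f (e z)), hh.symm.continuous.comp (hf2.comp he), ?_⟩
  intro y
  rw [Homeomorph.symm_apply_eq]
  have h1 : ((hh y : range eY) : ∀ _ : ℕ, Bool) = e y.1 := rfl
  rw [← h1, hf1]

/-- retractions onto countable closed sets -/
theorem exists_retr {Z : Type} [TopologicalSpace Z] [CompactSpace Z] [T2Space Z]
    [TotallyDisconnectedSpace Z] (Y : Set Z) (hY : IsClosed Y) (hc : Y.Countable) (hne : Y.Nonempty) :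
    ∃ ρ : Z → Z, Continuous ρ ∧ (∀ z, ρ z ∈ Y) ∧ ∀ y ∈ Y, ρ y = y := by
  obtain ⟨ρ, h1, h2⟩ := exists_retr_sub Y hY hc hne
  exact ⟨fun z => (ρ z).1, continuous_subtype_val.comp h1, fun z => (ρ z).2,
    fun y hy => congrArg Subtype.val (h2 ⟨y, hy⟩)⟩

/-- closed countable sets in zero-dimensional compact spaces -/
theorem countable_closed {Z : Type} [TopologicalSpace Z] [CompactSpace Z] [T2Space Z]
    [TotallyDisconnectedSpace Z] (Y : Set Z) (hY : IsClosed Y) (hc : Y.Countable) : TEmbB Y 1 := by
  rcases Y.eq_empty_or_nonempty with rfl | hne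
  · refine ⟨fun _ => ⟨fun _ => 0, continuous_const⟩, continuous_const, fun f y => (Set.notMem_empty _ y.2).elim,
      fun f M hM _ z => ?_⟩
    show |(0 : ℝ)| ≤ 1 * M
    rw [abs_zero, one_mul]
    exact hM
  · obtain ⟨ρ, h1, h2⟩ := exists_retr_sub Y hY hc hne
    refine ⟨fun f => ⟨fun z => f.1 (ρ z), f.2.comp h1⟩, ?_, ?_, ?_⟩
    · refine Continuous.subtype_mk (continuous_pi fun z => ?_) _
      exact (continuous_apply _).comp continuous_subtype_val
    · intro f y
      show f.1 (ρ y.1) = f.1 y
      rw [h2 y]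
    · intro f M hM hf z
      show |f.1 (ρ z)| ≤ 1 * M
      rw [one_mul]
      exact hf _

end Pool.Agent.TH624.J192
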