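import Pool.Agent.TH993.SP.Defs

/-!
# POL: polar coordinates for the double integral over a planar symmetric convex body
(helper624, job 3548 of helper993)
-/

set_option autoImplicit false

open MeasureTheory Set Real Filter Topology

namespace Pool.Agent.TH624.SPPOL

open Pool.Agent.TH993.SP

noncomputable section

/-! ### the map `toE` -/

lemma toE_add (u v : ℝ × ℝ) : toE (u + v) = toE u + toE v := by
  ext i; fin_cases i <;> simp [toE]

lemma toE_smul (r : ℝ) (u : ℝ × ℝ) : toE (r • u) = r • toE u := by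
  ext i; fin_cases i <;> simp [toE]

lemma toE_sub (u v : ℝ × ℝ) : toE (u - v) = toE u - toE v := by
  ext i; fin_cases i <;> simp [toE]

lemma toE_eq_zero {u : ℝ × ℝ} (h : toE u = 0) : u = 0 := by
  have h0 := congrArg (fun x : E2 => x 0) h
  have h1 := congrArg (fun x : E2 => x 1) h
  simp [toE] at h0 h1
  exact Prod.ext h0 h1

/-- `toE` as a measurable equivalence -/
def eqv : (ℝ × ℝ) ≃ᵐ E2 :=
  MeasurableEquiv.finTwoArrow.symm.trans (MeasurableEquiv.toLp 2 (Fin 2 → ℝ))

lemma eqv_apply (p : ℝ × ℝ) : eqv p = toE p := by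
  ext i; fin_cases i <;> simp [eqv, toE]

lemma mp : MeasurePreserving (eqv : ℝ × ℝ → E2) volume volume := by
  have h1 : MeasurePreserving (MeasurableEquiv.finTwoArrow.symm : ℝ × ℝ → (Fin 2 → ℝ))
      volume volume := (volume_preserving_finTwoArrow ℝ).symm _
  have h2 := PiLp.volume_preserving_toLp (Fin 2)
  exact h2.comp h1

lemma toE_cont : Continuous toE := by
  unfold toE
  fun_prop

lemma uv_ne (θ : ℝ) : uv θ ≠ 0 := by
  intro h
  have h0 := congrArg Prod.fst h
  have h1 := congrArg Prod.snd h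
  simp only [uv, Prod.fst_zero, Prod.snd_zero] at h0 h1
  have := Real.cos_sq_add_sin_sq θ
  rw [h0, h1] at this
  norm_num at this

lemma toE_ne {u : ℝ × ℝ} (h : u ≠ 0) : toE u ≠ 0 := fun h' => h (toE_eq_zero h')

lemma uv_cont : Continuous uv := by
  unfold uv
  fun_prop

lemma norm_uv (θ : ℝ) : ‖toE (uv θ)‖ = 1 := by
  rw [EuclideanSpace.norm_eq]
  simp [toE, uv, Real.cos_sq_add_sin_sq]

/-! ### gauge facts -/

section
variable {K : Set E2} (hK : Body K)
include hK

lemma nhds0 : K ∈ 𝓝 (0 : E2) := by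
  obtain ⟨hc, -, ⟨x, hx⟩, hs⟩ := hK
  have hx' : -x ∈ interior K := by
    have : interior K = interior (-K) := by
      congr 1
      ext y
      constructor
      · intro hy; exact hs y hy
      · intro hy; simpa using hs _ hy
    rw [this] 
    have h2 : interior (-K) = -interior K := by
      have := (Homeomorph.neg E2).preimage_interior K
      simpa using this.symm
    rw [h2]
    simpa using hx
  have h0 : (0 : E2) ∈ interior K := by
    have := hc.interior hx hx' (by norm_num : (0 : ℝ) ≤ 1/2) (by norm_num : (0 : ℝ) ≤ 1/2) (by norm_num)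
    simpa using this
  exact mem_interior_iff_mem_nhds.1 h0

lemma gcont : Continuous (gauge K) := continuous_gauge hK.1 (nhds0 hK)

lemma gpos {x : E2} (hx : x ≠ 0) : 0 < gauge K x :=
  (gauge_pos (absorbent_nhds_zero (nhds0 hK))
    (NormedSpace.isVonNBounded_of_isBounded ℝ hK.2.1.isBounded)).2 hx

lemma gadd (x y : E2) : gauge K (x + y) ≤ gauge K x + gauge K y :=
  gauge_add_le hK.1 (absorbent_nhds_zero (nhds0 hK)) x y

lemma gneg (x : E2) : gauge K (-x) = gauge K x := gauge_neg hK.2.2.2 x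

lemma gsmul_pos {r : ℝ} (hr : 0 ≤ r) (x : E2) : gauge K (r • x) = r * gauge K x := by
  rw [gauge_smul_of_nonneg hr, smul_eq_mul]

lemma gsmul (r : ℝ) (x : E2) : gauge K (r • x) = |r| * gauge K x := by
  rcases le_total 0 r with h | h
  · rw [abs_of_nonneg h, gsmul_pos hK h]
  · have : r • x = -((-r) • x) := by simp
    rw [this, gneg hK, gsmul_pos hK (by linarith), abs_of_nonpos h]

lemma mem_iff (x : E2) : x ∈ K ↔ gauge K x ≤ 1 := by
  rw [gauge_le_one_iff_mem_closure hK.1 (nhds0 hK), hK.2.1.isClosed.closure_eq]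

lemma isN : IsN (gN K) where
  add u v := by unfold gN; rw [toE_add]; exact gadd hK _ _
  smul r u := by unfold gN; rw [toE_smul]; exact gsmul hK _ _
  pos u hu := gpos hK (fun h => hu (toE_eq_zero h))
  cont := (gcont hK).comp toE_cont


lemma R_le : ∃ ρ : ℝ, 0 < ρ ∧ ∀ θ, (gN K (uv θ))⁻¹ ≤ ρ := by
  obtain ⟨ρ, hρ⟩ := hK.2.1.isBounded.exists_norm_le
  refine ⟨max ρ 1, by positivity, fun θ => ?_⟩
  have hg : 0 < gauge K (toE (uv θ)) := gpos hK (toE_ne (uv_ne θ))
  have hmem : (gauge K (toE (uv θ)))⁻¹ • toE (uv θ) ∈ K := by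
    rw [mem_iff hK, gsmul_pos hK (by positivity)]
    exact (inv_mul_cancel₀ hg.ne').le
  have := hρ _ hmem
  rw [norm_smul, norm_uv, mul_one, Real.norm_eq_abs, abs_of_pos (by positivity)] at this
  exact le_trans this (le_max_left _ _)

lemma polar (h : E2 → ℝ) (hm : Measurable h) (C : ℝ) (hC : ∀ x, |h x| ≤ C)
    (hh : ∀ r : ℝ, 0 < r → ∀ x, h (r • x) = h x) :
    ∫ x in K, h x = (1 / 2) * ∫ θ in (-π)..π, h (toE (uv θ)) * rd (gN K) θ := by
  have hKm : MeasurableSet K := hK.2.1.isClosed.measurableSet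
  obtain ⟨ρ, hρ0, hρ⟩ := R_le hK
  have hRpos : ∀ θ, 0 < (gN K (uv θ))⁻¹ := fun θ =>
    inv_pos.2 (gpos hK (toE_ne (uv_ne θ)))
  set R : ℝ → ℝ := fun θ => (gN K (uv θ))⁻¹ with hR
  set H : ℝ → ℝ := fun θ => h (toE (uv θ)) with hH
  set G : ℝ × ℝ → ℝ := fun p => if p.1 ≤ R p.2 then p.1 * H p.2 else 0 with hG
  have hRm : Measurable R := by
    have : Continuous (fun θ => gN K (uv θ)) := (isN hK).cont.comp uv_cont
    exact this.measurable.inv
  have hHm : Measurable H := hm.comp (toE_cont.comp uv_cont).measurable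
  have hGm : Measurable G := by
    refine Measurable.ite (measurableSet_le measurable_fst (hRm.comp measurable_snd)) ?_
      measurable_const
    exact measurable_fst.mul (hHm.comp measurable_snd)
  have hC0 : 0 ≤ C := le_trans (abs_nonneg _) (hC 0)
  have hRg : ∀ θ, R θ * gN K (uv θ) = 1 := fun θ =>
    inv_mul_cancel₀ (gpos hK (toE_ne (uv_ne θ))).ne'
  -- first step
  have e1 : ∫ x in K, h x = ∫ p : ℝ × ℝ, K.indicator h (toE p) := by
    rw [← integral_indicator hKm, ← mp.integral_comp' (g := K.indicator h)]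
    simp only [eqv_apply]
  have e2 : ∫ p : ℝ × ℝ, K.indicator h (toE p) = ∫ p in polarCoord.target, G p := by
    rw [← integral_comp_polarCoord_symm (fun p => K.indicator h (toE p))]
    refine setIntegral_congr_fun polarCoord.open_target.measurableSet fun p hp => ?_
    have hp1 : 0 < p.1 := hp.1
    have e3 : polarCoord.symm p = p.1 • uv p.2 := by
      rw [polarCoord_symm_apply]
      ext <;> simp [uv]
    simp only [e3, hG, smul_eq_mul]
    rw [toE_smul]
    by_cases hle : p.1 ≤ R p.2
    · rw [if_pos hle, Set.indicator_of_mem, hh _ hp1]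
      rw [mem_iff hK, gsmul_pos hK hp1.le]
      have : p.1 * gN K (uv p.2) ≤ R p.2 * gN K (uv p.2) :=
        mul_le_mul_of_nonneg_right hle (gpos hK (toE_ne (uv_ne _))).le
      rw [hRg] at this
      exact this
    · rw [if_neg hle, Set.indicator_of_notMem, mul_zero]
      rw [mem_iff hK, gsmul_pos hK hp1.le, not_le]
      rw [not_le] at hle
      have : R p.2 * gN K (uv p.2) < p.1 * gN K (uv p.2) :=
        mul_lt_mul_of_pos_right hle (gpos hK (toE_ne (uv_ne _)))
      rw [hRg] at this
      exact this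
  have hint : IntegrableOn G (Ioi (0 : ℝ) ×ˢ Ioo (-π) π) (volume.prod volume) := by
    have h1 : IntegrableOn G (Ioc (0 : ℝ) ρ ×ˢ Ioo (-π) π) (volume.prod volume) := by
      refine Measure.integrableOn_of_bounded (M := ρ * C) ?_ hGm.aestronglyMeasurable ?_
      · rw [Measure.prod_prod]
        simp [ENNReal.mul_eq_top]
      · refine (ae_restrict_iff' (measurableSet_Ioc.prod measurableSet_Ioo)).2
          (Eventually.of_forall fun p hp => ?_)
        have hp1 : 0 < p.1 := hp.1.1
        have hp2 : p.1 ≤ ρ := hp.1.2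
        simp only [hG]
        split_ifs
        · rw [Real.norm_eq_abs, abs_mul, abs_of_pos hp1]
          exact mul_le_mul hp2 (hC _) (abs_nonneg _) hρ0.le
        · simp; positivity
    refine h1.of_forall_sdiff_eq_zero (measurableSet_Ioi.prod measurableSet_Ioo) fun p hp => ?_
    have hp1 : 0 < p.1 := hp.1.1
    have hp2 : ρ < p.1 := by
      by_contra hcon
      exact hp.2 ⟨⟨hp1, not_lt.1 hcon⟩, hp.1.2⟩
    simp only [hG]
    rw [if_neg]
    rw [not_le]
    exact lt_of_le_of_lt (hρ _) hp2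
  have e4 : ∫ p in polarCoord.target, G p
      = ∫ θ in Ioo (-π) π, ∫ r in Ioi (0 : ℝ), G (r, θ) := by
    rw [polarCoord_target, Measure.volume_eq_prod, ← Measure.prod_restrict]
    rw [IntegrableOn, ← Measure.prod_restrict] at hint
    exact integral_prod_symm G hint
  have e5 : ∀ θ, ∫ r in Ioi (0 : ℝ), G (r, θ) = (1 / 2) * (H θ * rd (gN K) θ) := by
    intro θ
    have : ∀ r : ℝ, G (r, θ) = (Iic (R θ)).indicator (fun r => r * H θ) r := by
      intro r
      simp only [hG, Set.indicator, mem_Iic]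
    simp_rw [this]
    rw [setIntegral_indicator measurableSet_Iic, Ioi_inter_Iic,
      ← intervalIntegral.integral_of_le (hRpos θ).le, intervalIntegral.integral_mul_const,
      integral_id]
    have : R θ ^ 2 = rd (gN K) θ := by simp [hR, rd, inv_pow]
    rw [this]
    ring
  rw [e1, e2, e4]
  simp_rw [e5]
  rw [integral_const_mul, intervalIntegral.integral_of_le (by linarith [Real.pi_pos]),
    integral_Ioc_eq_integral_Ioo]


lemma gnn (x : E2) : 0 ≤ gauge K x := gauge_nonneg x

lemma proj_le (x : E2) : gauge K ((gauge K x)⁻¹ • x) ≤ 1 := by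
  rw [gsmul_pos hK (inv_nonneg.2 (gauge_nonneg x))]
  exact inv_mul_le_one

lemma proj_smul {r : ℝ} (hr : 0 < r) (x : E2) :
    (gauge K (r • x))⁻¹ • (r • x) = (gauge K x)⁻¹ • x := by
  rw [gsmul_pos hK hr.le, smul_smul, mul_inv, mul_comm r⁻¹, mul_assoc, inv_mul_cancel₀ hr.ne',
    mul_one]

lemma proj_meas : Measurable (fun x : E2 => (gauge K x)⁻¹ • x) :=
  ((gcont hK).measurable.inv).smul measurable_id

lemma ker_le (x y : E2) : |gauge K ((gauge K x)⁻¹ • x - (gauge K y)⁻¹ • y)| ≤ 2 := by
  rw [abs_of_nonneg (gauge_nonneg _), sub_eq_add_neg]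
  refine (gadd hK _ _).trans ?_
  rw [gneg hK]
  have h1 := proj_le hK x
  have h2 := proj_le hK y
  linarith

lemma ker_pt (θ φ : ℝ) : gauge K ((gauge K (toE (uv θ)))⁻¹ • toE (uv θ) -
    (gauge K (toE (uv φ)))⁻¹ • toE (uv φ)) = gN K (pt (gN K) θ - pt (gN K) φ) := by
  simp only [gN, pt, toE_sub, toE_smul]

theorem main : Espr K = EN (gN K) := by
  have hKm : MeasurableSet K := hK.2.1.isClosed.measurableSet
  have hfin : volume K ≠ ⊤ := hK.2.1.measure_lt_top.ne
  -- the volume
  have hvol : (volume K).toReal = (1 / 2) * ∫ θ in (-π)..π, rd (gN K) θ := by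
    have := polar hK (fun _ => (1 : ℝ)) measurable_const 1 (by simp) (by simp)
    simpa [Measure.real] using this
  -- the inner integral
  set Φ : E2 → ℝ := fun x => ∫ y in K, gauge K ((gauge K x)⁻¹ • x - (gauge K y)⁻¹ • y) with hΦ
  have hinner : ∀ x, Φ x = (1 / 2) * ∫ φ in (-π)..π,
      gauge K ((gauge K x)⁻¹ • x - (gauge K (toE (uv φ)))⁻¹ • toE (uv φ)) * rd (gN K) φ := by
    intro x
    refine polar hK (fun y => gauge K ((gauge K x)⁻¹ • x - (gauge K y)⁻¹ • y)) ?_ 2
      (fun y => ker_le hK x y) ?_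
    · exact (gcont hK).measurable.comp (measurable_const.sub (proj_meas hK))
    · intro r hr y
      simp only [proj_smul hK hr]
  have hΦm : Measurable Φ := by
    have h1 : Measurable (fun p : E2 × E2 =>
        gauge K ((gauge K p.1)⁻¹ • p.1 - (gauge K p.2)⁻¹ • p.2)) :=
      (gcont hK).measurable.comp (((proj_meas hK).comp measurable_fst).sub
        ((proj_meas hK).comp measurable_snd))
    exact (h1.stronglyMeasurable.integral_prod_right (ν := volume.restrict K)).measurable
  have hΦb : ∀ x, |Φ x| ≤ 2 * (volume K).toReal := by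
    intro x
    have := norm_setIntegral_le_of_norm_le_const (μ := volume) (s := K) (C := 2)
      (f := fun y => gauge K ((gauge K x)⁻¹ • x - (gauge K y)⁻¹ • y)) hK.2.1.measure_lt_top
      (fun y _ => by simpa [Real.norm_eq_abs] using ker_le hK x y)
    simpa [Real.norm_eq_abs, Measure.real] using this
  have houter := polar hK Φ hΦm _ hΦb (fun r hr x => by simp only [hΦ, proj_smul hK hr])
  have hnum : ∫ x in K, Φ x = (1 / 4) * ∫ θ in (-π)..π,
      (∫ φ in (-π)..π, gN K (pt (gN K) θ - pt (gN K) φ) * rd (gN K) φ) * rd (gN K) θ := by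
    rw [houter]
    have : ∀ θ, Φ (toE (uv θ)) * rd (gN K) θ = (1 / 2) *
        ((∫ φ in (-π)..π, gN K (pt (gN K) θ - pt (gN K) φ) * rd (gN K) φ) * rd (gN K) θ) := by
      intro θ
      rw [hinner]
      simp_rw [ker_pt hK]
      ring
    simp_rw [this]
    rw [intervalIntegral.integral_const_mul]
    ring
  unfold Espr EN
  change (∫ x in K, Φ x) / _ = _
  rw [hnum, hvol]
  have hI : 0 < ∫ θ in (-π)..π, rd (gN K) θ := by
    have : 0 < (volume K).toReal := by
      refine ENNReal.toReal_pos ?_ hfin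
      exact (Measure.measure_pos_of_mem_nhds _ (nhds0 hK)).ne'
    rw [hvol] at this
    linarith
  generalize (∫ θ in (-π)..π, rd (gN K) θ) = I at hI ⊢
  generalize (∫ θ in (-π)..π, (∫ φ in (-π)..π,
    gN K (pt (gN K) θ - pt (gN K) φ) * rd (gN K) φ) * rd (gN K) θ) = A
  have : I ≠ 0 := hI.ne'
  field_simp
  try ring

end

/-- polar coordinates for the sprawl of a planar symmetric convex body -/
theorem POL : Pool.Agent.TH993.SP.S_POL := fun _ hK => ⟨isN hK, main hK⟩

end

end Pool.Agent.TH624.SPPOL
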