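import Mathlib

/-!
# Chip-firing on Eulerian multidigraphs: termination as a system of linear inequalities
-/

set_option autoImplicit false

namespace Pool.Agent.TH624.CF

open Finset

variable {V : Type} [Fintype V] [DecidableEq V]

/-- out-degree -/
def outdeg (m : V → V → ℕ) (v : V) : ℕ := ∑ u, m v u

/-- An Eulerian multidigraph: no loops, in-degree = out-degree, connected. -/
structure Eulerian (m : V → V → ℕ) : Prop where
  loopless : ∀ v, m v v = 0
  balanced : ∀ v, ∑ u, m v u = ∑ u, m u v
  connected : ∀ u v, Relation.EqvGen (fun a b => 0 < m a b) u v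

/-- `v` is active in the configuration `x` -/
def Active (m : V → V → ℕ) (x : V → ℕ) (v : V) : Prop := outdeg m v ≤ x v

/-- firing `v` -/
def fire (m : V → V → ℕ) (x : V → ℕ) (v : V) : V → ℕ :=
  fun u => if u = v then x v - outdeg m v else x u + m v u

/-- one move of the game -/
def Move (m : V → V → ℕ) (x y : V → ℕ) : Prop := ∃ v, Active m x v ∧ y = fire m x v

/-- The game started from `x` terminates: some sequence of moves leads to a configuration without active
vertices. -/
def Terminates (m : V → V → ℕ) (x : V → ℕ) : Prop :=
  ∃ y, Relation.ReflTransGen (Move m) x y ∧ ∀ v, ¬ Active m y v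

/-- the configuration after firing every `u` exactly `f u` times -/
def after (m : V → V → ℕ) (x : V → ℕ) (f : V → ℤ) (v : V) : ℤ :=
  x v + ∑ u, (m u v : ℤ) * f u - outdeg m v * f v

theorem fire_eq (m : V → V → ℕ) (h0 : ∀ v, m v v = 0) (x : V → ℕ) (v : V) (hv : Active m x v) (u : V) :
    (fire m x v u : ℤ) = x u + m v u - (if u = v then (outdeg m v : ℤ) else 0) := by
  unfold fire
  by_cases h : u = v
  · subst h
    rw [if_pos rfl, if_pos rfl, h0]
    unfold Active at hv
    push_cast [Nat.cast_sub hv]
    ring
  · rw [if_neg h, if_neg h]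
    push_cast
    ring

theorem after_add_single (m : V → V → ℕ) (x : V → ℕ) (f : V → ℤ) (w : V) (c : ℤ) (v : V) :
    after m x (fun u => f u + if u = w then c else 0) v =
      after m x f v + (m w v * c - if v = w then (outdeg m w : ℤ) * c else 0) := by
  unfold after
  simp only [mul_add, Finset.sum_add_distrib, mul_ite, mul_zero, Finset.sum_ite_eq', Finset.mem_univ,
    if_true]
  by_cases h : v = w
  · subst h; simp; ring
  · simp [h]; ring

theorem exists_of_reaches (m : V → V → ℕ) (h0 : ∀ v, m v v = 0) (x y : V → ℕ)
    (h : Relation.ReflTransGen (Move m) x y) : ∃ f : V → ℤ, ∀ v, (y v : ℤ) = after m x f v := by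
  induction h with
  | refl => exact ⟨fun _ => 0, fun v => by simp [after]⟩
  | tail _ hm ih =>
    obtain ⟨f, hf⟩ := ih
    obtain ⟨w, hw, rfl⟩ := hm
    refine ⟨fun u => f u + if u = w then 1 else 0, fun v => ?_⟩
    rw [after_add_single, fire_eq m h0 _ w hw, hf v]
    by_cases h : v = w <;> simp [h] <;> ring

theorem terminates_of_nat (m : V → V → ℕ) (h0 : ∀ v, m v v = 0) (n : ℕ) :
    ∀ (x : V → ℕ) (f : V → ℕ), ∑ u, f u = n → (∀ v, after m x (fun u => f u) v < outdeg m v) →
      Terminates m x := by
  induction n with
  | zero =>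
    intro x f hf h
    have hf0 : ∀ u, f u = 0 := fun u => Finset.sum_eq_zero_iff.1 hf u (Finset.mem_univ _)
    refine ⟨x, Relation.ReflTransGen.refl, fun v hv => ?_⟩
    have := h v
    unfold after at this
    simp only [hf0, Nat.cast_zero, mul_zero, Finset.sum_const_zero, add_zero, sub_zero] at this
    unfold Active at hv
    omega
  | succ n ih =>
    intro x f hf h
    by_cases hact : ∃ v, Active m x v
    · obtain ⟨w, hw⟩ := hact
      have hpos : 0 < f w := by
        by_contra hcon
        have hz : f w = 0 := by omega
        have h1 := h w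
        unfold after at h1
        simp only [hz, Nat.cast_zero, mul_zero, sub_zero] at h1
        have h2 : (0 : ℤ) ≤ ∑ u, (m u w : ℤ) * (f u : ℤ) :=
          Finset.sum_nonneg fun u _ => by positivity
        unfold Active at hw
        omega
      let f' : V → ℕ := fun u => if u = w then f w - 1 else f u
      have hf' : ∀ u, ((f' u : ℕ) : ℤ) = (f u : ℤ) + if u = w then -1 else 0 := by
        intro u
        by_cases hu : u = w
        · subst hu
          simp only [f', if_true]
          omega
        · simp [f', hu]
      have hsum : ∑ u, f' u = n := by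
        have h1 : ∑ u, ((f' u : ℕ) : ℤ) = ∑ u, ((f u : ℕ) : ℤ) + -1 := by
          rw [Finset.sum_congr rfl fun u _ => hf' u, Finset.sum_add_distrib]
          simp
        have h2 : ((∑ u, f' u : ℕ) : ℤ) = n := by
          push_cast
          rw [h1]
          have : ((∑ u, f u : ℕ) : ℤ) = n + 1 := by rw [hf]; push_cast; ring
          push_cast at this
          rw [this]; ring
        exact_mod_cast h2
      obtain ⟨y, hy, hy'⟩ := ih (fire m x w) f' hsum (by
        intro v
        have h1 : after m (fire m x w) (fun u => ((f' u : ℕ) : ℤ)) v = after m x (fun u => (f u : ℤ)) v := by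
          have h2 : (fun u => ((f' u : ℕ) : ℤ)) = fun u => (f u : ℤ) + if u = w then -1 else 0 :=
            funext hf'
          rw [h2, after_add_single]
          unfold after
          rw [fire_eq m h0 x w hw v]
          by_cases hv : v = w <;> simp [hv] <;> ring
        rw [h1]
        exact h v)
      exact ⟨y, Relation.ReflTransGen.head ⟨w, hw, rfl⟩ hy, hy'⟩
    · exact ⟨x, Relation.ReflTransGen.refl, fun v hv => hact ⟨v, hv⟩⟩

/-- **Termination criterion.** -/
theorem terminates_iff (m : V → V → ℕ) (hm : Eulerian m) (x : V → ℕ) :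
    Terminates m x ↔ ∃ f : V → ℤ, ∀ v, after m x f v < outdeg m v := by
  constructor
  · rintro ⟨y, hy, hy'⟩
    obtain ⟨f, hf⟩ := exists_of_reaches m hm.loopless x y hy
    refine ⟨f, fun v => ?_⟩
    rw [← hf v]
    have := hy' v
    unfold Active at this
    omega
  · rintro ⟨f, hf⟩
    -- shift
    let κ : ℤ := ∑ u, |f u|
    have hκ : ∀ u, 0 ≤ f u + κ := by
      intro u
      have h1 : |f u| ≤ κ := Finset.single_le_sum (f := fun u => |f u|) (fun i _ => abs_nonneg _) (Finset.mem_univ u)
      have h2 := neg_abs_le (f u)
      linarith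
    refine terminates_of_nat m hm.loopless _ x (fun u => (f u + κ).toNat) rfl fun v => ?_
    have h1 : after m x (fun u => (((f u + κ).toNat : ℕ) : ℤ)) v = after m x f v := by
      unfold after
      have h2 : ∀ u, (((f u + κ).toNat : ℕ) : ℤ) = f u + κ := fun u => Int.toNat_of_nonneg (hκ u)
      simp only [h2, mul_add, Finset.sum_add_distrib]
      rw [← Finset.sum_mul]
      have h3 : (∑ u, (m u v : ℤ)) = outdeg m v := by
        unfold outdeg
        rw [hm.balanced v]
        push_cast
        rfl
      rw [h3]
      ring
    rw [h1]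
    exact hf v

end Pool.Agent.TH624.CF
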