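import Mathlib

/-!
# Orientation-compatible `w`-vertex covers and mean payoff games

Every position `p` of a mean payoff game is replaced by three nodes `u p`, `a p`, `b p` of a digraph with even
arc weights, in such a way that in *every* orientation-compatible cover `x` the numbers `x (a p)` satisfy the
optimality equations of the game truncated to `[0, W]`.
-/

set_option autoImplicit false

namespace Pool.Agent.TH624.MPG

/-- `x` is an orientation-compatible `w`-vertex cover of the digraph with arcs `A`. -/
structure IsCompatibleCover {V : Type} (A : V → V → Prop) (w : V → V → ℕ) (x : V → ℕ) : Prop where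
  cover : ∀ u v, A u v → w u v ≤ x u + x v
  tight : ∀ v, 0 < x v → ∃ u, A u v ∧ x u + x v = w u v

/-- A mean payoff game on the finite set `P` of positions: `max p` says that the maximizer moves at `p`,
`move p q` that `q` is a move from `p`, and `c p q` is the payoff of this move.  No move is a loop and every
position has a move. -/
structure Game (P : Type) where
  max : P → Prop
  move : P → P → Prop
  c : P → P → ℤ
  irrefl : ∀ p, ¬ move p p
  exists_move : ∀ p, ∃ q, move p q

variable {P : Type}

/-- the payoff of the moves number `i, ..., j - 1` of the play `z`. -/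
def Game.payoff (G : Game P) (z : ℕ → P) (i j : ℕ) : ℤ :=
  ∑ t ∈ Finset.Ico i j, G.c (z t) (z (t + 1))

/-- `z` is a play from `v`. -/
def Game.Play (G : Game P) (v : P) (z : ℕ → P) : Prop :=
  z 0 = v ∧ ∀ t, G.move (z t) (z (t + 1))

/-- The maximizer has a positional strategy such that in all plays from `v` that follow it, every closed
segment of at most `|P|` moves has payoff at least `0`; that is, he secures mean payoff at least `0`. -/
def Game.MaxSecures [Fintype P] (G : Game P) (v : P) : Prop :=
  ∃ s : P → P, (∀ p, G.move p (s p)) ∧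
    ∀ z, G.Play v z → (∀ t, G.max (z t) → z (t + 1) = s (z t)) →
      ∀ i j, i < j → j ≤ i + Fintype.card P → z i = z j → 0 ≤ G.payoff z i j

/-- The minimizer has a positional strategy such that in all plays from `v` that follow it, every closed
segment of at most `|P|` moves has negative payoff; that is, he secures a negative mean payoff. -/
def Game.MinSecures [Fintype P] (G : Game P) (v : P) : Prop :=
  ∃ s : P → P, (∀ p, G.move p (s p)) ∧
    ∀ z, G.Play v z → (∀ t, ¬ G.max (z t) → z (t + 1) = s (z t)) →
      ∀ i j, i < j → j ≤ i + Fintype.card P → z i = z j → G.payoff z i j < 0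

/-- the three kinds of nodes -/
inductive Kind
  | u | a | b
  deriving DecidableEq

instance : Fintype Kind := ⟨{Kind.u, Kind.a, Kind.b}, by intro x; cases x <;> simp⟩

/-- The modified payoff `2((n+1)c+1)`, `n` the number of positions. -/
def Game.c' [Fintype P] (G : Game P) (p q : P) : ℤ :=
  2 * ((Fintype.card P + 1) * G.c p q + 1)

/-- The arcs of the digraph of the game. -/
inductive Game.Arc (G : Game P) : P × Kind → P × Kind → Prop
  | maxMove (p q : P) (hp : G.max p) (h : G.move p q) : Game.Arc G (q, Kind.b) (p, Kind.u)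
  | maxB (p : P) (hp : G.max p) : Game.Arc G (p, Kind.u) (p, Kind.b)
  | maxA (p : P) (hp : G.max p) : Game.Arc G (p, Kind.b) (p, Kind.a)
  | minMove (p q : P) (hp : ¬ G.max p) (h : G.move p q) : Game.Arc G (q, Kind.a) (p, Kind.u)
  | minA (p : P) (hp : ¬ G.max p) : Game.Arc G (p, Kind.u) (p, Kind.a)
  | minB (p : P) (hp : ¬ G.max p) : Game.Arc G (p, Kind.a) (p, Kind.b)

/-- The weights of the arcs, for the truncation level `W`: arcs inside the gadget of a position have weight
`W`, the arc of a move of the maximizer has weight `W + c'` and that of a move of the minimizer `W - c'`. -/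
def Game.weight [Fintype P] (G : Game P) (W : ℕ) : P × Kind → P × Kind → ℕ
  | (q, Kind.b), (p, Kind.u) => (W + G.c' p q).toNat
  | (q, Kind.a), (p, Kind.u) => (W - G.c' p q).toNat
  | _, _ => W

/-- The maximizer has a positional strategy that secures mean payoff (`liminf` of the averages) at least `0`
in all plays from `v` that follow it, whatever the minimizer does. -/
def Game.MaxWins (G : Game P) (v : P) : Prop :=
  ∃ s : P → P, (∀ p, G.move p (s p)) ∧
    ∀ z, G.Play v z → (∀ t, G.max (z t) → z (t + 1) = s (z t)) →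
      ∀ ε : ℝ, 0 < ε → ∀ᶠ T : ℕ in Filter.atTop, -ε * T ≤ G.payoff z 0 T

/-- The minimizer has a positional strategy that secures mean payoff (`limsup` of the averages) at most
some `-ε < 0` in all plays from `v` that follow it, whatever the maximizer does. -/
def Game.MinWins (G : Game P) (v : P) : Prop :=
  ∃ s : P → P, (∀ p, G.move p (s p)) ∧ ∃ ε : ℝ, 0 < ε ∧
    ∀ z, G.Play v z → (∀ t, ¬ G.max (z t) → z (t + 1) = s (z t)) →
      ∀ᶠ T : ℕ in Filter.atTop, (G.payoff z 0 T : ℝ) ≤ -ε * T

section

variable [Fintype P] (G : Game P) (W : ℕ)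

omit [Fintype P] in
/-- The arcs are loopless, and there are no two opposite arcs. -/
theorem Game.arc_asymm (x y : P × Kind) (h : G.Arc x y) : ¬ G.Arc y x := by
  intro h'
  cases h <;> cases h' <;> first | contradiction | (exact absurd ‹_› (G.irrefl _))

theorem Game.weight_even (hW : Even W) (x y : P × Kind) (h : G.Arc x y) : Even (G.weight W x y) := by
  have key1 : ∀ p q, Even (W + G.c' p q).toNat := by
    intro p q
    obtain ⟨k, hk⟩ := hW
    refine ⟨(k + ((Fintype.card P + 1) * G.c p q + 1) : ℤ).toNat, ?_⟩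
    unfold Game.c'
    rw [hk]
    push_cast
    generalize ((Fintype.card P : ℤ) + 1) * G.c p q = m
    omega
  have key2 : ∀ p q, Even ((W : ℤ) - G.c' p q).toNat := by
    intro p q
    obtain ⟨k, hk⟩ := hW
    refine ⟨(k - ((Fintype.card P + 1) * G.c p q + 1) : ℤ).toNat, ?_⟩
    unfold Game.c'
    rw [hk]
    push_cast
    generalize ((Fintype.card P : ℤ) + 1) * G.c p q = m
    omega
  cases h <;> first | exact key1 _ _ | exact key2 _ _ | exact hW

variable {G W}

/-- the optimality equations of the truncated game -/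
structure TruncatedValue (G : Game P) (W : ℕ) (f : P → ℤ) : Prop where
  nonneg : ∀ p, 0 ≤ f p
  le : ∀ p, f p ≤ W
  max_ge : ∀ p q, G.max p → G.move p q → min (W : ℤ) (f q + G.c' p q) ≤ f p
  max_le : ∀ p, G.max p → ∃ q, G.move p q ∧ f p ≤ Max.max 0 (f q + G.c' p q)
  min_le : ∀ p q, ¬ G.max p → G.move p q → f p ≤ Max.max 0 (f q + G.c' p q)
  min_ge : ∀ p, ¬ G.max p → ∃ q, G.move p q ∧ min (W : ℤ) (f q + G.c' p q) ≤ f p

theorem truncated_of_cover {x : P × Kind → ℕ} (hc : ∀ p q, G.move p q → |G.c' p q| ≤ W)
    (hx : IsCompatibleCover G.Arc (G.weight W) x) :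
    TruncatedValue G W (fun p => (x (p, Kind.a) : ℤ)) := by
  have hsum : ∀ p, (x (p, Kind.a) : ℤ) + x (p, Kind.b) = W := by
    intro p
    by_cases hp : G.max p
    · -- b p ≤ W
      have h1 : x (p, Kind.b) ≤ W := by
        by_contra hcon
        rw [not_le] at hcon
        obtain ⟨y, hy, hy'⟩ := hx.tight (p, Kind.b) (by omega)
        cases hy with
        | maxB _ _ => simp only [Game.weight] at hy'; omega
        | minB _ h => exact h hp
      have h2 := hx.cover _ _ (Game.Arc.maxA p hp)
      simp only [Game.weight] at h2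
      rcases Nat.eq_zero_or_pos (x (p, Kind.a)) with h0 | h0
      · have : x (p, Kind.b) = W := by omega
        rw [h0, this]; simp
      · obtain ⟨y, hy, hy'⟩ := hx.tight (p, Kind.a) h0
        cases hy with
        | maxA _ _ => simp only [Game.weight] at hy'; omega
        | minA _ h => exact absurd hp h
    · have h1 : x (p, Kind.a) ≤ W := by
        by_contra hcon
        rw [not_le] at hcon
        obtain ⟨y, hy, hy'⟩ := hx.tight (p, Kind.a) (by omega)
        cases hy with
        | minA _ _ => simp only [Game.weight] at hy'; omega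
        | maxA _ h => exact absurd h hp
      have h2 := hx.cover _ _ (Game.Arc.minB p hp)
      simp only [Game.weight] at h2
      rcases Nat.eq_zero_or_pos (x (p, Kind.b)) with h0 | h0
      · have : x (p, Kind.a) = W := by omega
        rw [h0, this]; simp
      · obtain ⟨y, hy, hy'⟩ := hx.tight (p, Kind.b) h0
        cases hy with
        | minB _ _ => simp only [Game.weight] at hy'; omega
        | maxB _ h => exact absurd h hp
  refine ⟨?_, ?_, ?_, ?_, ?_, ?_⟩
  · intro p; positivity
  · intro p
    have := hsum p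
    omega
  · intro p q hp h
    have hcc := abs_le.1 (hc p q h)
    -- u p ≥ W + c' - b q
    have h1 := hx.cover _ _ (Game.Arc.maxMove p q hp h)
    simp only [Game.weight] at h1
    have h2 : ((W : ℤ) + G.c' p q).toNat = (W : ℤ) + G.c' p q := Int.toNat_of_nonneg (by omega)
    -- a p = min W (u p): b p ≤ W - u p or b p = 0
    have hq := hsum q
    have hp' := hsum p
    rcases Nat.eq_zero_or_pos (x (p, Kind.b)) with h0 | h0
    · have : (x (p, Kind.a) : ℤ) = W := by rw [h0] at hp'; simpa using hp'
      rw [this]; exact min_le_left _ _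
    · obtain ⟨y, hy, hy'⟩ := hx.tight (p, Kind.b) h0
      cases hy with
      | maxB _ _ =>
        simp only [Game.weight] at hy'
        refine le_trans (min_le_right _ _) ?_
        omega
      | minB _ h' => exact absurd hp h'
  · intro p hp
    have hp' := hsum p
    have hcov := hx.cover _ _ (Game.Arc.maxB p hp)
    simp only [Game.weight] at hcov
    rcases Nat.eq_zero_or_pos (x (p, Kind.u)) with h0 | h0
    · obtain ⟨q, hq⟩ := G.exists_move p
      refine ⟨q, hq, le_max_of_le_left ?_⟩
      omega
    · obtain ⟨y, hy, hy'⟩ := hx.tight (p, Kind.u) h0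
      cases hy with
      | maxMove _ q _ h =>
        refine ⟨q, h, le_max_of_le_right ?_⟩
        have hcc := abs_le.1 (hc p q h)
        have h2 : ((W : ℤ) + G.c' p q).toNat = (W : ℤ) + G.c' p q := Int.toNat_of_nonneg (by omega)
        simp only [Game.weight] at hy'
        have hq := hsum q
        omega
      | minMove _ q h' h => exact absurd hp h'
  · intro p q hp h
    have hcc := abs_le.1 (hc p q h)
    have h1 := hx.cover _ _ (Game.Arc.minMove p q hp h)
    simp only [Game.weight] at h1
    have h2 : ((W : ℤ) - G.c' p q).toNat = (W : ℤ) - G.c' p q := Int.toNat_of_nonneg (by omega)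
    have hq := hsum q
    have hp' := hsum p
    rcases Nat.eq_zero_or_pos (x (p, Kind.a)) with h0 | h0
    · rw [h0]; exact le_max_left _ _
    · obtain ⟨y, hy, hy'⟩ := hx.tight (p, Kind.a) h0
      cases hy with
      | minA _ _ =>
        simp only [Game.weight] at hy'
        refine le_trans ?_ (le_max_right _ _)
        omega
      | maxA _ h' => exact absurd h' hp
  · intro p hp
    have hp' := hsum p
    have hcov := hx.cover _ _ (Game.Arc.minA p hp)
    simp only [Game.weight] at hcov
    rcases Nat.eq_zero_or_pos (x (p, Kind.u)) with h0 | h0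
    · obtain ⟨q, hq⟩ := G.exists_move p
      refine ⟨q, hq, min_le_of_left_le ?_⟩
      omega
    · obtain ⟨y, hy, hy'⟩ := hx.tight (p, Kind.u) h0
      cases hy with
      | minMove _ q _ h =>
        refine ⟨q, h, min_le_of_right_le ?_⟩
        have hcc := abs_le.1 (hc p q h)
        have h2 : ((W : ℤ) - G.c' p q).toNat = (W : ℤ) - G.c' p q := Int.toNat_of_nonneg (by omega)
        simp only [Game.weight] at hy'
        have hq := hsum q
        omega
      | maxMove _ q h' h => exact absurd h' hp

/-- a play that follows a positional strategy of the maximizer and good answers of the minimizer -/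
theorem exists_repeat [DecidableEq P] (next : P → P) (v : P) :
    ∃ i j, i < j ∧ j ≤ Fintype.card P ∧ next^[i] v = next^[j] v := by
  classical
  have hc : Fintype.card P < Fintype.card (Fin (Fintype.card P + 1)) := by simp
  obtain ⟨i, j, hij, he⟩ := Fintype.exists_ne_map_eq_of_card_lt
    (fun k : Fin (Fintype.card P + 1) => next^[k.1] v) hc
  rcases lt_or_gt_of_ne hij with h | h
  · exact ⟨i, j, h, Nat.lt_succ_iff.1 j.2, he⟩
  · exact ⟨j, i, h, Nat.lt_succ_iff.1 i.2, he.symm⟩

theorem sum_tele (h : ℕ → ℤ) (i j : ℕ) (hij : i ≤ j) :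
    ∑ t ∈ Finset.Ico i j, (h t - h (t + 1)) = h i - h j := by
  induction j, hij using Nat.le_induction with
  | base => simp
  | succ j hj ih =>
    rw [Finset.sum_Ico_succ_top hj, ih]
    ring

theorem payoff' (z : ℕ → P) (i j : ℕ) (hij : i ≤ j) :
    ∑ t ∈ Finset.Ico i j, G.c' (z t) (z (t + 1)) =
      2 * ((Fintype.card P + 1) * G.payoff z i j + ((j : ℤ) - i)) := by
  unfold Game.c' Game.payoff
  rw [← Finset.mul_sum, Finset.sum_add_distrib, ← Finset.mul_sum]
  simp [Nat.cast_sub hij]

/-- going backwards along a path whose first member is nearly `W` -/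
theorem back_ge {f : P → ℤ} {C : ℤ} (z : ℕ → P) (hC : 0 ≤ C)
    (hz : ∀ t, min (W : ℤ) (f (z (t + 1)) + G.c' (z t) (z (t + 1))) ≤ f (z t))
    (hc : ∀ t, -C ≤ G.c' (z t) (z (t + 1))) (k : ℕ) (hk : f (z k) = W) :
    ∀ d, d ≤ k → (W : ℤ) - d * C ≤ f (z (k - d)) := by
  intro d
  induction d with
  | zero => intro _; simp [hk]
  | succ d ih =>
    intro hd
    have h1 := ih (by omega)
    have h2 := hz (k - (d + 1))
    have h3 := hc (k - (d + 1))
    have h4 : k - (d + 1) + 1 = k - d := by omega
    rw [h4] at h2 h3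
    have h5 : (0 : ℤ) ≤ d * C := by positivity
    rcases min_le_iff.1 h2 with h | h
    · push_cast
      nlinarith
    · push_cast
      nlinarith

theorem back_le {f : P → ℤ} {C : ℤ} (z : ℕ → P) (hC : 0 ≤ C)
    (hz : ∀ t, f (z t) ≤ Max.max 0 (f (z (t + 1)) + G.c' (z t) (z (t + 1))))
    (hc : ∀ t, G.c' (z t) (z (t + 1)) ≤ C) (k : ℕ) (hk : f (z k) = 0) :
    ∀ d, d ≤ k → f (z (k - d)) ≤ d * C := by
  intro d
  induction d with
  | zero => intro _; simp [hk]
  | succ d ih =>
    intro hd
    have h1 := ih (by omega)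
    have h2 := hz (k - (d + 1))
    have h3 := hc (k - (d + 1))
    have h4 : k - (d + 1) + 1 = k - d := by omega
    rw [h4] at h2 h3
    have h5 : (0 : ℤ) ≤ d * C := by positivity
    rcases le_max_iff.1 h2 with h | h
    · push_cast
      nlinarith
    · push_cast
      nlinarith

theorem max_case {f : P → ℤ} {C : ℤ} (hC : 0 ≤ C) (hc : ∀ p q, G.move p q → |G.c' p q| ≤ C)
    (hf : TruncatedValue G W f) (v : P) (hv : G.MaxSecures v) :
    (W : ℤ) - Fintype.card P * C ≤ f v := by
  classical
  obtain ⟨s, hs, hs'⟩ := hv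
  choose! g hg using hf.min_ge
  let next : P → P := fun p => if G.max p then s p else g p
  have hmove : ∀ p, G.move p (next p) := by
    intro p
    by_cases hp : G.max p
    · simp only [next, hp, if_true]; exact hs p
    · simp only [next, hp, if_false]; exact (hg p hp).1
  have hval : ∀ p, min (W : ℤ) (f (next p) + G.c' p (next p)) ≤ f p := by
    intro p
    by_cases hp : G.max p
    · exact hf.max_ge p _ hp (hmove p)
    · simp only [next, hp, if_false]; exact (hg p hp).2
  let z : ℕ → P := fun t => next^[t] v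
  have hzs : ∀ t, z (t + 1) = next (z t) := fun t => Function.iterate_succ_apply' next t v
  have hplay : G.Play v z := ⟨rfl, fun t => by rw [hzs]; exact hmove _⟩
  have hcons : ∀ t, G.max (z t) → z (t + 1) = s (z t) := by
    intro t ht
    rw [hzs]
    simp only [next, ht, if_true]
  obtain ⟨i, j, hij, hj, he⟩ := exists_repeat next v
  have hpay := hs' z hplay hcons i j hij (by omega) he
  have hz : ∀ t, min (W : ℤ) (f (z (t + 1)) + G.c' (z t) (z (t + 1))) ≤ f (z t) := by
    intro t; rw [hzs]; exact hval _
  have hcz : ∀ t, -C ≤ G.c' (z t) (z (t + 1)) := fun t => (abs_le.1 (hc _ _ (hplay.2 t))).1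
  -- some member of the cycle has value W
  have hex : ∃ k, i ≤ k ∧ k < j ∧ f (z k) = W := by
    by_contra hcon
    push Not at hcon
    have h1 : ∀ t ∈ Finset.Ico i j, G.c' (z t) (z (t + 1)) ≤ f (z t) - f (z (t + 1)) := by
      intro t ht
      rw [Finset.mem_Ico] at ht
      have h2 := hcon t ht.1 ht.2
      have h3 := hf.le (z t)
      rcases min_le_iff.1 (hz t) with h | h
      · exact absurd (le_antisymm h3 h) h2
      · linarith
    have h2 := Finset.sum_le_sum h1
    rw [payoff' z i j hij.le] at h2
    have h3 : ∑ t ∈ Finset.Ico i j, (f (z t) - f (z (t + 1))) = f (z i) - f (z j) :=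
      sum_tele (fun t => f (z t)) i j hij.le
    rw [h3] at h2
    have h4 : f (z i) = f (z j) := by
      have : z i = z j := he
      rw [this]
    have h5 : (0 : ℤ) ≤ (Fintype.card P + 1) * G.payoff z i j := by positivity
    have h6 : (i : ℤ) < j := by exact_mod_cast hij
    linarith
  obtain ⟨k, hik, hkj, hk⟩ := hex
  have h := back_ge (G := G) z hC hz hcz k hk k le_rfl
  rw [Nat.sub_self] at h
  have h7 : (k : ℤ) ≤ Fintype.card P := by exact_mod_cast (by omega : k ≤ Fintype.card P)
  have h8 : (k : ℤ) * C ≤ Fintype.card P * C := mul_le_mul_of_nonneg_right h7 hC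
  have h9 : z 0 = v := rfl
  rw [h9] at h
  linarith

theorem min_case {f : P → ℤ} {C : ℤ} (hC : 0 ≤ C) (hc : ∀ p q, G.move p q → |G.c' p q| ≤ C)
    (hf : TruncatedValue G W f) (v : P) (hv : G.MinSecures v) :
    f v ≤ Fintype.card P * C := by
  classical
  obtain ⟨s, hs, hs'⟩ := hv
  choose! g hg using hf.max_le
  let next : P → P := fun p => if G.max p then g p else s p
  have hmove : ∀ p, G.move p (next p) := by
    intro p
    by_cases hp : G.max p
    · simp only [next, hp, if_true]; exact (hg p hp).1
    · simp only [next, hp, if_false]; exact hs p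
  have hval : ∀ p, f p ≤ Max.max 0 (f (next p) + G.c' p (next p)) := by
    intro p
    by_cases hp : G.max p
    · simp only [next, hp, if_true]; exact (hg p hp).2
    · exact hf.min_le p _ hp (hmove p)
  let z : ℕ → P := fun t => next^[t] v
  have hzs : ∀ t, z (t + 1) = next (z t) := fun t => Function.iterate_succ_apply' next t v
  have hplay : G.Play v z := ⟨rfl, fun t => by rw [hzs]; exact hmove _⟩
  have hcons : ∀ t, ¬ G.max (z t) → z (t + 1) = s (z t) := by
    intro t ht
    rw [hzs]
    simp only [next, ht, if_false]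
  obtain ⟨i, j, hij, hj, he⟩ := exists_repeat next v
  have hpay := hs' z hplay hcons i j hij (by omega) he
  have hz : ∀ t, f (z t) ≤ Max.max 0 (f (z (t + 1)) + G.c' (z t) (z (t + 1))) := by
    intro t; rw [hzs]; exact hval _
  have hcz : ∀ t, G.c' (z t) (z (t + 1)) ≤ C := fun t => (abs_le.1 (hc _ _ (hplay.2 t))).2
  have hex : ∃ k, i ≤ k ∧ k < j ∧ f (z k) = 0 := by
    by_contra hcon
    push Not at hcon
    have h1 : ∀ t ∈ Finset.Ico i j, f (z t) - f (z (t + 1)) ≤ G.c' (z t) (z (t + 1)) := by
      intro t ht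
      rw [Finset.mem_Ico] at ht
      have h2 := hcon t ht.1 ht.2
      have h3 := hf.nonneg (z t)
      rcases le_max_iff.1 (hz t) with h | h
      · exact absurd (le_antisymm h h3) h2
      · linarith
    have h2 := Finset.sum_le_sum h1
    rw [payoff' z i j hij.le, sum_tele (fun t => f (z t)) i j hij.le] at h2
    have h4 : f (z i) = f (z j) := by
      have : z i = z j := he
      rw [this]
    have h5 : (Fintype.card P + 1) * G.payoff z i j ≤ -(Fintype.card P + 1 : ℤ) := by
      nlinarith [hpay, (Nat.cast_nonneg (Fintype.card P) : (0 : ℤ) ≤ Fintype.card P)]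
    have h6 : (j : ℤ) ≤ i + Fintype.card P := by exact_mod_cast (by omega : j ≤ i + Fintype.card P)
    linarith
  obtain ⟨k, hik, hkj, hk⟩ := hex
  have h := back_le (G := G) z hC hz hcz k hk k le_rfl
  rw [Nat.sub_self] at h
  have h7 : (k : ℤ) ≤ Fintype.card P := by exact_mod_cast (by omega : k ≤ Fintype.card P)
  have h8 : (k : ℤ) * C ≤ Fintype.card P * C := mul_le_mul_of_nonneg_right h7 hC
  have h9 : z 0 = v := rfl
  rw [h9] at h
  linarith

omit [Fintype P] in
/-- cutting a closed segment out of a path -/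
theorem cut (R : P → P → Prop) (z : ℕ → P) (hz : ∀ t, R (z t) (z (t + 1))) (a b : ℕ) (hab : a < b)
    (he : z a = z b) (t : ℕ) (ht : b ≤ t) :
    ∃ z' : ℕ → P, z' 0 = z 0 ∧ (∀ t, R (z' t) (z' (t + 1))) ∧ z' (t - (b - a)) = z t := by
  refine ⟨fun s => if s ≤ a then z s else z (s + (b - a)), by simp, ?_, ?_⟩
  · intro s
    simp only
    by_cases h1 : s + 1 ≤ a
    · rw [if_pos h1, if_pos (by omega : s ≤ a)]
      exact hz s
    · rw [if_neg h1]
      by_cases h2 : s ≤ a
      · rw [if_pos h2]
        have h3 : s = a := by omega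
        subst h3
        rw [he]
        have h4 : s + 1 + (b - s) = b + 1 := by omega
        rw [h4]
        exact hz b
      · rw [if_neg h2]
        have h4 : s + 1 + (b - a) = (s + (b - a)) + 1 := by omega
        rw [h4]
        exact hz _
  · simp only
    by_cases h2 : t - (b - a) ≤ a
    · rw [if_pos h2]
      have h3 : t = b := by omega
      subst h3
      have h4 : t - (t - a) = a := by omega
      rw [h4, he]
    · rw [if_neg h2]
      congr 1
      omega

theorem shorten (R : P → P → Prop) (v : P) (t : ℕ) :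
    ∀ z : ℕ → P, z 0 = v → (∀ t, R (z t) (z (t + 1))) →
      ∃ z' : ℕ → P, z' 0 = v ∧ (∀ t, R (z' t) (z' (t + 1))) ∧ ∃ t', t' ≤ Fintype.card P ∧ z' t' = z t := by
  classical
  induction t using Nat.strong_induction_on with
  | _ t ih =>
    intro z h0 hz
    by_cases ht : t ≤ Fintype.card P
    · exact ⟨z, h0, hz, t, ht, rfl⟩
    · have hc : Fintype.card P < Fintype.card (Fin (Fintype.card P + 1)) := by simp
      obtain ⟨a, b, hab, he⟩ := Fintype.exists_ne_map_eq_of_card_lt
        (fun k : Fin (Fintype.card P + 1) => z k.1) hc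
      have key : ∃ a b : ℕ, a < b ∧ b ≤ Fintype.card P ∧ z a = z b := by
        rcases lt_or_gt_of_ne hab with h | h
        · exact ⟨a, b, h, Nat.lt_succ_iff.1 b.2, he⟩
        · exact ⟨b, a, h, Nat.lt_succ_iff.1 a.2, he.symm⟩
      obtain ⟨a, b, hab, hb, he⟩ := key
      obtain ⟨z', h0', hz', ht'⟩ := cut R z hz a b hab he t (by omega)
      obtain ⟨z'', h1, h2, t', h3, h4⟩ := ih (t - (b - a)) (by omega) z' (h0'.trans h0) hz'
      exact ⟨z'', h1, h2, t', h3, h4.trans ht'⟩

theorem maxSecures_of_le {f : P → ℤ} {C : ℤ} (hC : 0 ≤ C) (hc : ∀ p q, G.move p q → |G.c' p q| ≤ C)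
    (hf : TruncatedValue G W f) (v : P) (hv : Fintype.card P * C < f v) : G.MaxSecures v := by
  classical
  choose! g hg using hf.max_le
  choose e he using G.exists_move
  let s : P → P := fun p => if G.max p then g p else e p
  have hs : ∀ p, G.move p (s p) := by
    intro p
    by_cases hp : G.max p
    · simp only [s, hp, if_true]; exact (hg p hp).1
    · simp only [s, hp, if_false]; exact he p
  refine ⟨s, hs, ?_⟩
  intro z hz hcons i j hij hj hzij
  by_contra hneg
  rw [not_le] at hneg
  -- the relation of moves that follow `s`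
  let R : P → P → Prop := fun p q => G.move p q ∧ (G.max p → q = s p)
  have hR : ∀ p q, R p q → f p ≤ Max.max 0 (f q + G.c' p q) := by
    intro p q h
    by_cases hp : G.max p
    · have h1 := h.2 hp
      simp only [s, hp, if_true] at h1
      rw [h1]
      exact (hg p hp).2
    · exact hf.min_le p q hp h.1
  have hzR : ∀ t, R (z t) (z (t + 1)) := fun t => ⟨hz.2 t, hcons t⟩
  have hex : ∃ k, f (z k) = 0 := by
    by_contra hcon
    push Not at hcon
    have h1 : ∀ t ∈ Finset.Ico i j, f (z t) - f (z (t + 1)) ≤ G.c' (z t) (z (t + 1)) := by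
      intro t ht
      rcases le_max_iff.1 (hR _ _ (hzR t)) with h | h
      · exact absurd (le_antisymm h (hf.nonneg _)) (hcon t)
      · linarith
    have h2 := Finset.sum_le_sum h1
    rw [payoff' z i j hij.le, sum_tele (fun t => f (z t)) i j hij.le] at h2
    have h4 : f (z i) = f (z j) := by rw [hzij]
    have h5 : (Fintype.card P + 1) * G.payoff z i j ≤ -(Fintype.card P + 1 : ℤ) := by
      nlinarith [hneg, (Nat.cast_nonneg (Fintype.card P) : (0 : ℤ) ≤ Fintype.card P)]
    have h6 : (j : ℤ) ≤ i + Fintype.card P := by exact_mod_cast hj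
    linarith
  obtain ⟨k, hk⟩ := hex
  obtain ⟨z', h0, h1, t', h2, h3⟩ := shorten R v k z hz.1 hzR
  have h := back_le (G := G) z' hC (fun t => hR _ _ (h1 t))
    (fun t => (abs_le.1 (hc _ _ (h1 t).1)).2) t' (by rw [h3, hk]) t' le_rfl
  rw [Nat.sub_self, h0] at h
  have h7 : (t' : ℤ) ≤ Fintype.card P := by exact_mod_cast h2
  have h8 : (t' : ℤ) * C ≤ Fintype.card P * C := mul_le_mul_of_nonneg_right h7 hC
  linarith

theorem minSecures_of_le {f : P → ℤ} {C : ℤ} (hC : 0 ≤ C) (hc : ∀ p q, G.move p q → |G.c' p q| ≤ C)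
    (hf : TruncatedValue G W f) (v : P) (hv : f v < W - Fintype.card P * C) : G.MinSecures v := by
  classical
  choose! g hg using hf.min_ge
  choose e he using G.exists_move
  let s : P → P := fun p => if G.max p then e p else g p
  have hs : ∀ p, G.move p (s p) := by
    intro p
    by_cases hp : G.max p
    · simp only [s, hp, if_true]; exact he p
    · simp only [s, hp, if_false]; exact (hg p hp).1
  refine ⟨s, hs, ?_⟩
  intro z hz hcons i j hij hj hzij
  by_contra hneg
  rw [not_lt] at hneg
  let R : P → P → Prop := fun p q => G.move p q ∧ (¬ G.max p → q = s p)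
  have hR : ∀ p q, R p q → min (W : ℤ) (f q + G.c' p q) ≤ f p := by
    intro p q h
    by_cases hp : G.max p
    · exact hf.max_ge p q hp h.1
    · have h1 := h.2 hp
      simp only [s, hp, if_false] at h1
      rw [h1]
      exact (hg p hp).2
  have hzR : ∀ t, R (z t) (z (t + 1)) := fun t => ⟨hz.2 t, hcons t⟩
  have hex : ∃ k, f (z k) = W := by
    by_contra hcon
    push Not at hcon
    have h1 : ∀ t ∈ Finset.Ico i j, G.c' (z t) (z (t + 1)) ≤ f (z t) - f (z (t + 1)) := by
      intro t ht
      rcases min_le_iff.1 (hR _ _ (hzR t)) with h | h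
      · exact absurd (le_antisymm (hf.le _) h) (hcon t)
      · linarith
    have h2 := Finset.sum_le_sum h1
    rw [payoff' z i j hij.le, sum_tele (fun t => f (z t)) i j hij.le] at h2
    have h4 : f (z i) = f (z j) := by rw [hzij]
    have h5 : (0 : ℤ) ≤ (Fintype.card P + 1) * G.payoff z i j := by positivity
    have h6 : (i : ℤ) < j := by exact_mod_cast hij
    linarith
  obtain ⟨k, hk⟩ := hex
  obtain ⟨z', h0, h1, t', h2, h3⟩ := shorten R v k z hz.1 hzR
  have h := back_ge (G := G) z' hC (fun t => hR _ _ (h1 t))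
    (fun t => (abs_le.1 (hc _ _ (h1 t).1)).1) t' (by rw [h3, hk]) t' le_rfl
  rw [Nat.sub_self, h0] at h
  have h7 : (t' : ℤ) ≤ Fintype.card P := by exact_mod_cast h2
  have h8 : (t' : ℤ) * C ≤ Fintype.card P * C := mul_le_mul_of_nonneg_right h7 hC
  linarith

/-- the truncation level -/
def level (n C : ℕ) : ℕ := 2 * (n * (2 * ((n + 1) * C + 1))) + 2

theorem main (G : Game P) (C : ℕ) (hC : ∀ p q, G.move p q → |G.c p q| ≤ C)
    (x : P × Kind → ℕ) (hx : IsCompatibleCover G.Arc (G.weight (level (Fintype.card P) C)) x) (v : P) :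
    (level (Fintype.card P) C < 2 * x (v, Kind.a) ↔ G.MaxSecures v) ∧
    (2 * x (v, Kind.a) < level (Fintype.card P) C ↔ G.MinSecures v) ∧
    2 * x (v, Kind.a) ≠ level (Fintype.card P) C := by
  set n := Fintype.card P with hn
  set C' : ℤ := 2 * ((n + 1) * C + 1) with hC'
  have hn1 : 1 ≤ n := Fintype.card_pos_iff.2 ⟨v⟩
  have hC0 : (0 : ℤ) ≤ C' := by positivity
  have hc : ∀ p q, G.move p q → |G.c' p q| ≤ C' := by
    intro p q h
    have h1 := abs_le.1 (hC p q h)
    rw [abs_le]
    unfold Game.c'
    rw [← hn, hC']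
    constructor <;> nlinarith [h1.1, h1.2, (Nat.cast_nonneg n : (0 : ℤ) ≤ n)]
  have hW : ((level n C : ℕ) : ℤ) = 2 * (n * C') + 2 := by
    unfold level
    push_cast
    rfl
  have hcW : ∀ p q, G.move p q → |G.c' p q| ≤ (level n C : ℕ) := by
    intro p q h
    refine (hc p q h).trans ?_
    rw [hW]
    have : (1 : ℤ) ≤ n := by exact_mod_cast hn1
    nlinarith
  have hf := truncated_of_cover hcW hx
  have hmax := max_case hC0 hc hf v
  have hmin := min_case hC0 hc hf v
  have hmax' := maxSecures_of_le hC0 hc hf v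
  have hmin' := minSecures_of_le hC0 hc hf v
  rw [← hn] at hmax hmin hmax' hmin'
  rw [hW] at hmax hmin'
  have hW' : ((level n C : ℕ) : ℤ) = 2 * (n * C') + 2 := hW
  refine ⟨⟨fun h => hmax' ?_, fun h => ?_⟩, ⟨fun h => hmin' ?_, fun h => ?_⟩, fun h => ?_⟩
  · zify at h; rw [hW'] at h; linarith
  · have := hmax h; zify; rw [hW']; linarith
  · zify at h; rw [hW'] at h; linarith
  · have := hmin h; zify; rw [hW']; linarith
  · have h1 : (2 : ℤ) * x (v, Kind.a) = 2 * (n * C') + 2 := by rw [← hW']; exact_mod_cast h
    have := hmax (hmax' (by linarith))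
    linarith

/-- the path with a closed segment cut out -/
def cutPlay (z : ℕ → P) (a b : ℕ) : ℕ → P := fun s => if s ≤ a then z s else z (s + (b - a))

omit [Fintype P] in
theorem cutPlay_ge (z : ℕ → P) (a b : ℕ) (hab : a < b) (he : z a = z b) (s : ℕ) (hs : a ≤ s) :
    cutPlay z a b s = z (s + (b - a)) := by
  unfold cutPlay
  by_cases h : s ≤ a
  · have h3 : s = a := by omega
    subst h3
    rw [if_pos le_rfl, he]
    congr 1
    omega
  · rw [if_neg h]

omit [Fintype P] in
theorem cutPlay_rel (R : P → P → Prop) (z : ℕ → P) (hz : ∀ t, R (z t) (z (t + 1))) (a b : ℕ) (hab : a < b)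
    (he : z a = z b) (t : ℕ) : R (cutPlay z a b t) (cutPlay z a b (t + 1)) := by
  by_cases h : a ≤ t
  · rw [cutPlay_ge z a b hab he t h, cutPlay_ge z a b hab he (t + 1) (by omega)]
    have h4 : t + 1 + (b - a) = (t + (b - a)) + 1 := by omega
    rw [h4]
    exact hz _
  · unfold cutPlay
    rw [if_pos (by omega), if_pos (by omega)]
    exact hz t

omit [Fintype P] in
theorem payoff_cut (z : ℕ → P) (a b T : ℕ) (hab : a < b) (he : z a = z b) (hT : b ≤ T) :
    G.payoff z 0 T = G.payoff z a b + G.payoff (cutPlay z a b) 0 (T - (b - a)) := by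
  unfold Game.payoff
  rw [← Finset.sum_Ico_consecutive _ (Nat.zero_le a) (by omega : a ≤ T),
    ← Finset.sum_Ico_consecutive _ (hab.le) hT,
    ← Finset.sum_Ico_consecutive _ (Nat.zero_le a) (by omega : a ≤ T - (b - a))]
  have h1 : ∑ t ∈ Finset.Ico 0 a, G.c (cutPlay z a b t) (cutPlay z a b (t + 1)) =
      ∑ t ∈ Finset.Ico 0 a, G.c (z t) (z (t + 1)) := by
    refine Finset.sum_congr rfl fun t ht => ?_
    rw [Finset.mem_Ico] at ht
    unfold cutPlay
    rw [if_pos (by omega), if_pos (by omega)]
  have h2 : ∑ t ∈ Finset.Ico a (T - (b - a)), G.c (cutPlay z a b t) (cutPlay z a b (t + 1)) =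
      ∑ t ∈ Finset.Ico b T, G.c (z t) (z (t + 1)) := by
    have h3 := Finset.sum_Ico_add' (fun t => G.c (z t) (z (t + 1))) a (T - (b - a)) (b - a)
    rw [show a + (b - a) = b by omega, show T - (b - a) + (b - a) = T by omega] at h3
    rw [← h3]
    refine Finset.sum_congr rfl fun t ht => ?_
    rw [Finset.mem_Ico] at ht
    rw [cutPlay_ge z a b hab he t ht.1, cutPlay_ge z a b hab he (t + 1) (by omega)]
    congr 2
    omega
  rw [h1, h2]
  ring

/-- The relation of the moves allowed by a strategy: total payoffs are bounded below if all closed segments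
of at most `|P|` moves are nonnegative. -/
theorem payoff_ge (R : P → P → Prop) (v : P) (K : ℤ) (hK : 0 ≤ K)
    (hR : ∀ p q, R p q → -K ≤ G.c p q)
    (hcyc : ∀ z : ℕ → P, z 0 = v → (∀ t, R (z t) (z (t + 1))) →
      ∀ i j, i < j → j ≤ i + Fintype.card P → z i = z j → 0 ≤ G.payoff z i j) (T : ℕ) :
    ∀ z : ℕ → P, z 0 = v → (∀ t, R (z t) (z (t + 1))) → -(Fintype.card P * K) ≤ G.payoff z 0 T := by
  classical
  induction T using Nat.strong_induction_on with
  | _ T ih =>
    intro z h0 hz
    by_cases hT : T ≤ Fintype.card P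
    · have h1 : ∀ t ∈ Finset.Ico 0 T, -K ≤ G.c (z t) (z (t + 1)) := fun t _ => hR _ _ (hz t)
      have h2 := Finset.card_nsmul_le_sum (Finset.Ico 0 T) _ (-K) h1
      rw [Nat.card_Ico, Nat.sub_zero, nsmul_eq_mul] at h2
      have h3 : (T : ℤ) * K ≤ Fintype.card P * K :=
        mul_le_mul_of_nonneg_right (by exact_mod_cast hT) hK
      unfold Game.payoff
      linarith
    · have hc : Fintype.card P < Fintype.card (Fin (Fintype.card P + 1)) := by simp
      obtain ⟨a, b, hab, he⟩ := Fintype.exists_ne_map_eq_of_card_lt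
        (fun k : Fin (Fintype.card P + 1) => z k.1) hc
      have key : ∃ a b : ℕ, a < b ∧ b ≤ Fintype.card P ∧ z a = z b := by
        rcases lt_or_gt_of_ne hab with h | h
        · exact ⟨a, b, h, Nat.lt_succ_iff.1 b.2, he⟩
        · exact ⟨b, a, h, Nat.lt_succ_iff.1 a.2, he.symm⟩
      obtain ⟨a, b, hab, hb, he⟩ := key
      rw [payoff_cut z a b T hab he (by omega)]
      have h1 := hcyc z h0 hz a b hab (by omega) he
      have h2 := ih (T - (b - a)) (by omega) (cutPlay z a b) (by simp [cutPlay, h0])
        (cutPlay_rel R z hz a b hab he)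
      linarith

theorem payoff_le (R : P → P → Prop) (v : P) (K : ℤ) (hK : 0 ≤ K)
    (hR : ∀ p q, R p q → G.c p q ≤ K)
    (hcyc : ∀ z : ℕ → P, z 0 = v → (∀ t, R (z t) (z (t + 1))) →
      ∀ i j, i < j → j ≤ i + Fintype.card P → z i = z j → G.payoff z i j < 0) (T : ℕ) :
    ∀ z : ℕ → P, z 0 = v → (∀ t, R (z t) (z (t + 1))) →
      Fintype.card P * G.payoff z 0 T + T ≤ Fintype.card P * (Fintype.card P * K) + Fintype.card P := by
  classical
  induction T using Nat.strong_induction_on with
  | _ T ih =>
    intro z h0 hz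
    by_cases hT : T ≤ Fintype.card P
    · have h1 : ∀ t ∈ Finset.Ico 0 T, G.c (z t) (z (t + 1)) ≤ K := fun t _ => hR _ _ (hz t)
      have h2 := Finset.sum_le_card_nsmul (Finset.Ico 0 T) _ K h1
      rw [Nat.card_Ico, Nat.sub_zero, nsmul_eq_mul] at h2
      have h3 : (T : ℤ) * K ≤ Fintype.card P * K :=
        mul_le_mul_of_nonneg_right (by exact_mod_cast hT) hK
      have h4 : (T : ℤ) ≤ Fintype.card P := by exact_mod_cast hT
      have h5 : G.payoff z 0 T ≤ Fintype.card P * K := by
        unfold Game.payoff
        linarith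
      have h6 : (Fintype.card P : ℤ) * G.payoff z 0 T ≤ Fintype.card P * (Fintype.card P * K) :=
        mul_le_mul_of_nonneg_left h5 (by positivity)
      linarith
    · have hc : Fintype.card P < Fintype.card (Fin (Fintype.card P + 1)) := by simp
      obtain ⟨a, b, hab, he⟩ := Fintype.exists_ne_map_eq_of_card_lt
        (fun k : Fin (Fintype.card P + 1) => z k.1) hc
      have key : ∃ a b : ℕ, a < b ∧ b ≤ Fintype.card P ∧ z a = z b := by
        rcases lt_or_gt_of_ne hab with h | h
        · exact ⟨a, b, h, Nat.lt_succ_iff.1 b.2, he⟩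
        · exact ⟨b, a, h, Nat.lt_succ_iff.1 a.2, he.symm⟩
      obtain ⟨a, b, hab, hb, he⟩ := key
      rw [payoff_cut z a b T hab he (by omega)]
      have h1 := hcyc z h0 hz a b hab (by omega) he
      have h2 := ih (T - (b - a)) (by omega) (cutPlay z a b) (by simp [cutPlay, h0])
        (cutPlay_rel R z hz a b hab he)
      have h3 : ((T - (b - a) : ℕ) : ℤ) = T - (b - a) := by
        rw [Nat.cast_sub (by omega), Nat.cast_sub hab.le]
      rw [h3] at h2
      have h4 : ((b : ℤ) - a) ≤ Fintype.card P := by
        have : (b : ℤ) ≤ Fintype.card P := by exact_mod_cast hb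
        have : (0 : ℤ) ≤ a := by positivity
        linarith
      have h5 : (Fintype.card P : ℤ) * G.payoff z a b ≤ -Fintype.card P := by
        have : G.payoff z a b ≤ -1 := by omega
        nlinarith [(Nat.cast_nonneg (Fintype.card P) : (0 : ℤ) ≤ Fintype.card P)]
      nlinarith

theorem maxWins_of_secures (C : ℕ) (hC : ∀ p q, G.move p q → |G.c p q| ≤ C) (v : P)
    (h : G.MaxSecures v) : G.MaxWins v := by
  obtain ⟨s, hs, hs'⟩ := h
  refine ⟨s, hs, fun z hz hcons ε hε => ?_⟩
  let R : P → P → Prop := fun p q => G.move p q ∧ (G.max p → q = s p)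
  have h1 := payoff_ge (G := G) R v C (by positivity) (fun p q h => (abs_le.1 (hC p q h.1)).1)
    (fun z h0 hz => hs' z ⟨h0, fun t => (hz t).1⟩ (fun t ht => (hz t).2 ht))
  filter_upwards [Filter.eventually_ge_atTop (Nat.ceil ((Fintype.card P * C : ℝ) / ε))] with T hT
  have h2 := h1 T z hz.1 (fun t => ⟨hz.2 t, hcons t⟩)
  have h3 : (Fintype.card P * C : ℝ) / ε ≤ T := Nat.ceil_le.1 hT
  rw [div_le_iff₀ hε] at h3
  have h4 : (-(Fintype.card P * C : ℤ) : ℝ) ≤ G.payoff z 0 T := by exact_mod_cast h2
  push_cast at h4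
  linarith

theorem minWins_of_secures (C : ℕ) (hC : ∀ p q, G.move p q → |G.c p q| ≤ C) (v : P)
    (h : G.MinSecures v) : G.MinWins v := by
  obtain ⟨s, hs, hs'⟩ := h
  have hn : 0 < Fintype.card P := Fintype.card_pos_iff.2 ⟨v⟩
  have hnr : (0 : ℝ) < Fintype.card P := by exact_mod_cast hn
  refine ⟨s, hs, 1 / (2 * Fintype.card P), by positivity, fun z hz hcons => ?_⟩
  let R : P → P → Prop := fun p q => G.move p q ∧ (¬ G.max p → q = s p)
  have h1 := payoff_le (G := G) R v C (by positivity) (fun p q h => (abs_le.1 (hC p q h.1)).2)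
    (fun z h0 hz => hs' z ⟨h0, fun t => (hz t).1⟩ (fun t ht => (hz t).2 ht))
  filter_upwards [Filter.eventually_ge_atTop
    (2 * (Fintype.card P * (Fintype.card P * C) + Fintype.card P))] with T hT
  have h2 := h1 T z hz.1 (fun t => ⟨hz.2 t, hcons t⟩)
  have h3 : (Fintype.card P * G.payoff z 0 T + T : ℝ) ≤
      Fintype.card P * (Fintype.card P * C) + Fintype.card P := by exact_mod_cast h2
  have h4 : (2 * (Fintype.card P * (Fintype.card P * C) + Fintype.card P) : ℝ) ≤ T := by
    exact_mod_cast hT
  have h5 : (Fintype.card P : ℝ) * G.payoff z 0 T ≤ -(T / 2) := by linarith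
  have h6 : (Fintype.card P : ℝ) * G.payoff z 0 T ≤
      Fintype.card P * (-(1 / (2 * Fintype.card P)) * T) := by
    refine h5.trans (le_of_eq ?_)
    field_simp
  exact le_of_mul_le_mul_left h6 hnr

omit [Fintype P] in
/-- the two players cannot both win -/
theorem not_both (v : P) (h1 : G.MaxWins v) (h2 : G.MinWins v) : False := by
  classical
  obtain ⟨s, hs, hs'⟩ := h1
  obtain ⟨r, hr, ε, hε, hr'⟩ := h2
  let next : P → P := fun p => if G.max p then s p else r p
  let z : ℕ → P := fun t => next^[t] v
  have hzs : ∀ t, z (t + 1) = next (z t) := fun t => Function.iterate_succ_apply' next t v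
  have hplay : G.Play v z := by
    refine ⟨rfl, fun t => ?_⟩
    rw [hzs]
    by_cases hp : G.max (z t)
    · simp only [next, hp, if_true]; exact hs _
    · simp only [next, hp, if_false]; exact hr _
  have h3 := hs' z hplay (fun t ht => by rw [hzs]; simp only [next, ht, if_true]) (ε / 2) (by positivity)
  have h4 := hr' z hplay (fun t ht => by rw [hzs]; simp only [next, ht, if_false])
  obtain ⟨T, h5, h6, h7⟩ := (h3.and (h4.and (Filter.eventually_gt_atTop 0))).exists
  have h8 : (0 : ℝ) < T := by exact_mod_cast h7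
  nlinarith

omit [Fintype P] in
/-- the digraph is bipartite -/
theorem bipartite (G : Game P) : ∃ color : P × Kind → Bool, ∀ x y, G.Arc x y → color x ≠ color y := by
  classical
  refine ⟨fun x => match x with
    | (_, Kind.a) => false
    | (_, Kind.b) => true
    | (p, Kind.u) => if G.max p then false else true, ?_⟩
  intro x y h
  cases h with
  | maxMove p q hp h => simp [hp]
  | maxB p hp => simp [hp]
  | maxA p hp => simp
  | minMove p q hp h => simp [hp]
  | minA p hp => simp [hp]
  | minB p hp => simp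

theorem card_nodes : Fintype.card (P × Kind) = 3 * Fintype.card P := by
  rw [Fintype.card_prod, mul_comm]
  rfl

theorem level_even (n C : ℕ) : Even (level n C) := by
  unfold level
  exact ⟨n * (2 * ((n + 1) * C + 1)) + 1, by ring⟩

theorem weight_le (G : Game P) (C : ℕ) (hC : ∀ p q, G.move p q → |G.c p q| ≤ C) (x y : P × Kind)
    (h : G.Arc x y) :
    G.weight (level (Fintype.card P) C) x y ≤ 2 * level (Fintype.card P) C := by
  have key : ∀ p q, G.move p q → |G.c' p q| ≤ (level (Fintype.card P) C : ℕ) := by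
    intro p q h
    have hn1 : 1 ≤ Fintype.card P := Fintype.card_pos_iff.2 ⟨p⟩
    have h1 := abs_le.1 (hC p q h)
    have h2 : |G.c' p q| ≤ 2 * ((Fintype.card P + 1) * C + 1) := by
      rw [abs_le]
      unfold Game.c'
      constructor <;> nlinarith [h1.1, h1.2, (Nat.cast_nonneg (Fintype.card P) : (0 : ℤ) ≤ Fintype.card P)]
    refine h2.trans ?_
    unfold level
    push_cast
    have h3 : (1 : ℤ) ≤ Fintype.card P := by exact_mod_cast hn1
    have h4 : (0 : ℤ) ≤ 2 * ((Fintype.card P + 1) * C + 1) := by positivity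
    nlinarith
  cases h with
  | maxMove p q hp h =>
    have := abs_le.1 (key p q h)
    simp only [Game.weight]
    omega
  | minMove p q hp h =>
    have := abs_le.1 (key p q h)
    simp only [Game.weight]
    omega
  | maxB p hp => simp only [Game.weight]; omega
  | maxA p hp => simp only [Game.weight]; omega
  | minA p hp => simp only [Game.weight]; omega
  | minB p hp => simp only [Game.weight]; omega

/-- **Main theorem**, in terms of the mean payoff. -/
theorem main_wins (G : Game P) (C : ℕ) (hC : ∀ p q, G.move p q → |G.c p q| ≤ C)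
    (x : P × Kind → ℕ) (hx : IsCompatibleCover G.Arc (G.weight (level (Fintype.card P) C)) x) (v : P) :
    (level (Fintype.card P) C < 2 * x (v, Kind.a) ↔ G.MaxWins v) ∧
    (2 * x (v, Kind.a) < level (Fintype.card P) C ↔ G.MinWins v) ∧
    2 * x (v, Kind.a) ≠ level (Fintype.card P) C := by
  obtain ⟨h1, h2, h3⟩ := main G C hC x hx v
  refine ⟨⟨fun h => maxWins_of_secures C hC v (h1.1 h), fun h => ?_⟩,
    ⟨fun h => minWins_of_secures C hC v (h2.1 h), fun h => ?_⟩, h3⟩
  · rcases lt_trichotomy (level (Fintype.card P) C) (2 * x (v, Kind.a)) with h4 | h4 | h4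
    · exact h4
    · exact absurd h4.symm h3
    · exact (not_both v h (minWins_of_secures C hC v (h2.1 h4))).elim
  · rcases lt_trichotomy (level (Fintype.card P) C) (2 * x (v, Kind.a)) with h4 | h4 | h4
    · exact (not_both v (maxWins_of_secures C hC v (h1.1 h4)) h).elim
    · exact absurd h4.symm h3
    · exact h4

end

end Pool.Agent.TH624.MPG
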