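import Pool.Agent.TH624.CF
import Pool.Agent.TH624.MPG

/-!
# Mean payoff games and chip-firing on Eulerian multidigraphs
-/

set_option autoImplicit false

namespace Pool.Agent.TH624.CG

open Finset Pool.Agent.TH624.CF Pool.Agent.TH624.MPG

variable {P : Type} [Fintype P] [DecidableEq P]

/-- A game with two moves `l v`, `r v` at every position, with a positive circulation `ml, mr` on its moves,
in which every position can be reached from every position. -/
structure FlowGame (G : Game P) (l r : P → P) (ml mr : P → ℕ) : Prop where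
  moves : ∀ p q, G.move p q ↔ q = l p ∨ q = r p
  posl : ∀ p, 0 < ml p
  posr : ∀ p, 0 < mr p
  circulation : ∀ v, ml v + mr v =
    ∑ u, ((if l u = v then ml u else 0) + (if r u = v then mr u else 0))
  strong : ∀ u v, ∃ z, G.Play u z ∧ ∃ t, z t = v

variable {G : Game P} {l r : P → P} {ml mr : P → ℕ}

theorem circ_sum (hG : FlowGame G l r ml mr) (φ : P → ℤ) :
    ∑ v, ((ml v : ℤ) * φ (l v) + mr v * φ (r v)) = ∑ v, ((ml v : ℤ) + mr v) * φ v := by
  have h1 : ∀ v : P, ((ml v : ℤ) + mr v) * φ v =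
      ∑ u, ((if l u = v then (ml u : ℤ) * φ v else 0) + (if r u = v then (mr u : ℤ) * φ v else 0)) := by
    intro v
    have h2 : ((ml v : ℤ) + mr v) = ∑ u, ((if l u = v then (ml u : ℤ) else 0) +
        (if r u = v then (mr u : ℤ) else 0)) := by
      have := hG.circulation v
      have h3 : ((ml v + mr v : ℕ) : ℤ) = ((∑ u, ((if l u = v then ml u else 0) +
        (if r u = v then mr u else 0)) : ℕ) : ℤ) := by rw [this]
      push_cast at h3
      exact h3
    rw [h2, Finset.sum_mul]
    refine Finset.sum_congr rfl fun u _ => ?_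
    rw [add_mul, ite_mul, ite_mul, zero_mul]
  rw [Finset.sum_congr rfl fun v _ => h1 v, Finset.sum_comm]
  refine Finset.sum_congr rfl fun u _ => ?_
  rw [Finset.sum_add_distrib, Finset.sum_ite_eq, Finset.sum_ite_eq]
  simp

/-- approximately superharmonic functions on a circulation have small spread -/
theorem spread (hG : FlowGame G l r ml mr) (t : P → ℤ) (σ : ℤ) (hσ : 0 ≤ σ)
    (hg : ∀ v, (ml v : ℤ) * (t (l v) - t v) + mr v * (t (r v) - t v) ≤ σ) (u v : P) :
    t u - t v ≤ 2 * (Fintype.card P : ℤ) ^ 3 * σ := by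
  obtain ⟨v1, -, h1⟩ := Finset.exists_max_image univ t ⟨u, Finset.mem_univ u⟩
  obtain ⟨v2, -, h2⟩ := Finset.exists_min_image univ t ⟨u, Finset.mem_univ u⟩
  set S := t v1 - t v2 with hS
  have hS0 : 0 ≤ S := by have := h1 v2 (Finset.mem_univ _); omega
  set n : ℤ := ((Fintype.card P : ℕ) : ℤ) with hn
  have hn0 : 0 ≤ n := by positivity
  have hle : t u - t v ≤ S := by
    have := h1 u (Finset.mem_univ _); have := h2 v (Finset.mem_univ _); omega
  refine hle.trans ?_
  -- the energy
  set E : ℤ := ∑ v, ((ml v : ℤ) * (t (l v) - t v) ^ 2 + mr v * (t (r v) - t v) ^ 2) with hE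
  have hE2 : E = 2 * ∑ v, (t v1 - t v) * ((ml v : ℤ) * (t (l v) - t v) + mr v * (t (r v) - t v)) := by
    have e1 := circ_sum hG (fun v => t v ^ 2)
    have e2 := circ_sum hG t
    have e3 : E = ∑ v, ((ml v : ℤ) * t (l v) ^ 2 + mr v * t (r v) ^ 2) +
        ∑ v, ((ml v : ℤ) + mr v) * t v ^ 2 -
        2 * ∑ v, t v * ((ml v : ℤ) * t (l v) + mr v * t (r v)) := by
      rw [hE, Finset.mul_sum, ← Finset.sum_add_distrib, ← Finset.sum_sub_distrib]
      refine Finset.sum_congr rfl fun v _ => ?_
      ring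
    have e4 : ∑ v, (t v1 - t v) * ((ml v : ℤ) * (t (l v) - t v) + mr v * (t (r v) - t v)) =
        t v1 * (∑ v, ((ml v : ℤ) * t (l v) + mr v * t (r v)) - ∑ v, ((ml v : ℤ) + mr v) * t v) +
        ∑ v, ((ml v : ℤ) + mr v) * t v ^ 2 -
        ∑ v, t v * ((ml v : ℤ) * t (l v) + mr v * t (r v)) := by
      rw [← Finset.sum_sub_distrib, Finset.mul_sum, ← Finset.sum_add_distrib, ← Finset.sum_sub_distrib]
      refine Finset.sum_congr rfl fun v _ => ?_
      ring
    rw [e3, e4, e1, e2]
    ring
  have hE3 : E ≤ 2 * (n * (S * σ)) := by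
    rw [hE2]
    have h3 : ∑ v, (t v1 - t v) * ((ml v : ℤ) * (t (l v) - t v) + mr v * (t (r v) - t v)) ≤
        ∑ _v : P, S * σ := by
      refine Finset.sum_le_sum fun v _ => ?_
      have h4 : 0 ≤ t v1 - t v := by have := h1 v (Finset.mem_univ _); omega
      have h5 : t v1 - t v ≤ S := by have := h2 v (Finset.mem_univ _); omega
      calc (t v1 - t v) * ((ml v : ℤ) * (t (l v) - t v) + mr v * (t (r v) - t v))
          ≤ (t v1 - t v) * σ := mul_le_mul_of_nonneg_left (hg v) h4
        _ ≤ S * σ := mul_le_mul_of_nonneg_right h5 hσ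
    rw [Finset.sum_const, Finset.card_univ, nsmul_eq_mul] at h3
    linarith
  -- every move has small difference
  have hmove : ∀ p q, G.move p q → (t p - t q) ^ 2 ≤ E := by
    intro p q hpq
    have h3 : (ml p : ℤ) * (t (l p) - t p) ^ 2 + mr p * (t (r p) - t p) ^ 2 ≤ E :=
      Finset.single_le_sum (f := fun v => (ml v : ℤ) * (t (l v) - t v) ^ 2 + mr v * (t (r v) - t v) ^ 2)
        (fun v _ => by positivity) (Finset.mem_univ p)
    have h4 : (1 : ℤ) ≤ ml p := by exact_mod_cast hG.posl p
    have h5 : (1 : ℤ) ≤ mr p := by exact_mod_cast hG.posr p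
    rcases (hG.moves p q).1 hpq with rfl | rfl
    · nlinarith [sq_nonneg (t (l p) - t p), sq_nonneg (t (r p) - t p)]
    · nlinarith [sq_nonneg (t (l p) - t p), sq_nonneg (t (r p) - t p)]
  obtain ⟨z, hz, k, hk⟩ := hG.strong v1 v2
  obtain ⟨z', h0, h3, k', h4, h5⟩ := shorten G.move v1 k z hz.1 hz.2
  have hSE : S ^ 2 ≤ n ^ 2 * E := by
    have h6 : S = ∑ i ∈ Finset.range k', (t (z' i) - t (z' (i + 1))) := by
      rw [Finset.sum_range_sub', h0, h5, hk]
    have h7 : S ^ 2 ≤ k' * ∑ i ∈ Finset.range k', (t (z' i) - t (z' (i + 1))) ^ 2 := by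
      rw [h6]
      have := sq_sum_le_card_mul_sum_sq (s := Finset.range k') (f := fun i => t (z' i) - t (z' (i + 1)))
      rwa [Finset.card_range] at this
    have h8 : ∑ i ∈ Finset.range k', (t (z' i) - t (z' (i + 1))) ^ 2 ≤ k' * E := by
      have := Finset.sum_le_card_nsmul (Finset.range k') (fun i => (t (z' i) - t (z' (i + 1))) ^ 2) E
        (fun i _ => hmove _ _ (h3 i))
      rwa [Finset.card_range, nsmul_eq_mul] at this
    have hE0 : 0 ≤ E := Finset.sum_nonneg fun v _ => by positivity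
    have hk'n : (k' : ℤ) ≤ n := by rw [hn]; exact_mod_cast h4
    have hk'0 : (0 : ℤ) ≤ k' := by positivity
    calc S ^ 2 ≤ k' * ∑ i ∈ Finset.range k', (t (z' i) - t (z' (i + 1))) ^ 2 := h7
      _ ≤ k' * (k' * E) := mul_le_mul_of_nonneg_left h8 hk'0
      _ = (k' * k') * E := by ring
      _ ≤ (n * n) * E := mul_le_mul_of_nonneg_right (mul_le_mul hk'n hk'n hk'0 hn0) hE0
      _ = n ^ 2 * E := by ring
  rcases hS0.eq_or_lt with hS1 | hS1
  · rw [← hS1]; positivity
  · have h9 : S * S ≤ S * (2 * n ^ 3 * σ) := by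
      have h10 : n ^ 2 * E ≤ n ^ 2 * (2 * (n * (S * σ))) :=
        mul_le_mul_of_nonneg_left hE3 (by positivity)
      nlinarith [hSE, h10]
    exact le_of_mul_le_mul_left h9 hS1

/-- existence of the truncated value -/
theorem exists_truncated (hG : FlowGame G l r ml mr) (W : ℕ) : ∃ f, TruncatedValue G W f := by
  classical
  let T : (P → ℤ) → P → ℤ := fun f p =>
    if G.max p then min (W : ℤ) (Max.max 0 (Max.max (f (l p) + G.c' p (l p)) (f (r p) + G.c' p (r p))))
    else min (W : ℤ) (Max.max 0 (min (f (l p) + G.c' p (l p)) (f (r p) + G.c' p (r p))))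
  have hT0 : ∀ f p, 0 ≤ T f p := by
    intro f p
    simp only [T]
    split_ifs <;> exact le_min (by positivity) (le_max_left _ _)
  have hTW : ∀ f p, T f p ≤ W := by
    intro f p
    simp only [T]
    split_ifs <;> exact min_le_left _ _
  have hmono : ∀ f g : P → ℤ, (∀ p, f p ≤ g p) → ∀ p, T f p ≤ T g p := by
    intro f g h p
    have h1 := h (l p)
    have h2 := h (r p)
    simp only [T]
    split_ifs
    · exact min_le_min le_rfl (max_le_max le_rfl (max_le_max (by linarith) (by linarith)))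
    · exact min_le_min le_rfl (max_le_max le_rfl (min_le_min (by linarith) (by linarith)))
  have hex : ∃ k : ℕ, ∃ f : P → ℤ, (∀ p, 0 ≤ f p) ∧ (∀ p, T f p ≤ f p) ∧ ∑ p, f p = k := by
    exact ⟨Fintype.card P * W, fun _ => (W : ℤ), fun p => Int.natCast_nonneg W,
      fun p => hTW (fun _ => (W : ℤ)) p, by simp⟩
  obtain ⟨f, hf0, hf1, hf2⟩ := Nat.find_spec hex
  have hfix : ∀ p, T f p = f p := by
    by_contra hcon
    push Not at hcon
    obtain ⟨p, hp⟩ := hcon
    have h1 : ∑ q, T f q < ∑ q, f q :=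
      Finset.sum_lt_sum (fun q _ => hf1 q) ⟨p, Finset.mem_univ _, lt_of_le_of_ne (hf1 p) hp⟩
    have h2 : 0 ≤ ∑ q, T f q := Finset.sum_nonneg fun q _ => hT0 f q
    have h3 : (∑ q, T f q).toNat < Nat.find hex := by omega
    exact Nat.find_min hex h3 ⟨T f, hT0 f, hmono _ _ hf1, by omega⟩
  have hmv : ∀ p, G.move p (l p) ∧ G.move p (r p) := fun p =>
    ⟨(hG.moves p _).2 (Or.inl rfl), (hG.moves p _).2 (Or.inr rfl)⟩
  refine ⟨f, hf0, fun p => by rw [← hfix p]; exact hTW f p, ?_, ?_, ?_, ?_⟩
  · intro p q hp hq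
    have h1 := hfix p
    simp only [T, hp, if_true] at h1
    rw [← h1]
    rcases (hG.moves p q).1 hq with rfl | rfl
    · exact min_le_min le_rfl ((le_max_left _ _).trans (le_max_right _ _))
    · exact min_le_min le_rfl ((le_max_right _ _).trans (le_max_right _ _))
  · intro p hp
    have h1 := hfix p
    simp only [T, hp, if_true] at h1
    rw [← h1]
    rcases le_total (f (l p) + G.c' p (l p)) (f (r p) + G.c' p (r p)) with h | h
    · refine ⟨r p, (hmv p).2, ?_⟩
      rw [max_eq_right h]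
      exact min_le_right _ _
    · refine ⟨l p, (hmv p).1, ?_⟩
      rw [max_eq_left h]
      exact min_le_right _ _
  · intro p q hp hq
    have h1 := hfix p
    simp only [T, hp, if_false] at h1
    rw [← h1]
    rcases (hG.moves p q).1 hq with rfl | rfl
    · exact (min_le_right _ _).trans (max_le_max le_rfl (min_le_left _ _))
    · exact (min_le_right _ _).trans (max_le_max le_rfl (min_le_right _ _))
  · intro p hp
    have h1 := hfix p
    simp only [T, hp, if_false] at h1
    rw [← h1]
    rcases le_total (f (l p) + G.c' p (l p)) (f (r p) + G.c' p (r p)) with h | h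
    · refine ⟨l p, (hmv p).1, ?_⟩
      rw [min_eq_left h]
      exact min_le_min le_rfl (le_max_right _ _)
    · refine ⟨r p, (hmv p).2, ?_⟩
      rw [min_eq_right h]
      exact min_le_min le_rfl (le_max_right _ _)

end Pool.Agent.TH624.CG
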