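import Pool.Agent.TH624.CG

/-!
# The chip-firing game of a mean payoff game
-/

set_option autoImplicit false

namespace Pool.Agent.TH624.CG

open Finset Pool.Agent.TH624.CF Pool.Agent.TH624.MPG

variable {P : Type} [Fintype P] [DecidableEq P]

/-- the three kinds of vertices -/
inductive Kd
  | p | q | w
  deriving DecidableEq

instance : Fintype Kd := ⟨{Kd.p, Kd.q, Kd.w}, by intro x; cases x <;> simp⟩

theorem sum_kd {M : Type} [AddCommMonoid M] (f : Kd → M) : ∑ k, f k = f Kd.p + f Kd.q + f Kd.w := by
  show ∑ k ∈ ({Kd.p, Kd.q, Kd.w} : Finset Kd), f k = _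
  rw [Finset.sum_insert (by simp), Finset.sum_insert (by simp), Finset.sum_singleton, add_assoc]

/-- The multiplicities.  `p` and `q` of a position are joined by `N v` (respectively `N v + ml v`) edges,
`q` and `w` by `Z` edges; `p v` receives `ml v` edges from `q (l v)` and `q v` receives `mr v` edges from
`q (r v)`. -/
def mult (l r : P → P) (ml mr N : P → ℕ) (Z : ℕ) : P × Kd → P × Kd → ℕ
  | (s, Kd.q), (v, Kd.p) => (if s = v then N v else 0) + (if l v = s then ml v else 0)
  | (s, Kd.q), (v, Kd.q) => if r v = s then mr v else 0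
  | (s, Kd.q), (v, Kd.w) => if s = v then Z else 0
  | (s, Kd.p), (v, Kd.q) => if s = v then N v + ml v else 0
  | (s, Kd.w), (v, Kd.q) => if s = v then Z else 0
  | _, _ => 0

open Classical in
/-- The chips. -/
noncomputable def config (G : Game P) (l r : P → P) (ml mr N : P → ℕ) (Z : ℕ) : P × Kd → ℕ
  | (v, Kd.p) => (N v + ml v * G.c' v (l v)).toNat
  | (v, Kd.q) => ((if G.max v then ((N v : ℤ) + ml v) else 0) + Z + mr v * G.c' v (r v)).toNat
  | (_, Kd.w) => 0

variable {G : Game P} {l r : P → P} {ml mr : P → ℕ} (N : P → ℕ) (Z : ℕ)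

theorem outdeg_p (v : P) : outdeg (mult l r ml mr N Z) (v, Kd.p) = N v + ml v := by
  unfold outdeg
  rw [Fintype.sum_prod_type]
  simp only [sum_kd, mult, zero_add, add_zero]
  rw [Finset.sum_ite_eq]
  simp

theorem outdeg_w (v : P) : outdeg (mult l r ml mr N Z) (v, Kd.w) = Z := by
  unfold outdeg
  rw [Fintype.sum_prod_type]
  simp only [sum_kd, mult, zero_add, add_zero]
  rw [Finset.sum_ite_eq]
  simp

theorem outdeg_q (hG : FlowGame G l r ml mr) (v : P) :
    outdeg (mult l r ml mr N Z) (v, Kd.q) = N v + Z + (ml v + mr v) := by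
  unfold outdeg
  rw [Fintype.sum_prod_type]
  simp only [sum_kd, mult]
  rw [hG.circulation v]
  rw [Finset.sum_add_distrib, Finset.sum_add_distrib, Finset.sum_add_distrib, Finset.sum_add_distrib,
    Finset.sum_ite_eq, Finset.sum_ite_eq]
  simp only [Finset.mem_univ, if_true]
  ring

/-- the function `after` at the vertices `p` -/
theorem after_p (x : P × Kd → ℕ) (f : P × Kd → ℤ) (v : P) :
    after (mult l r ml mr N Z) x f (v, Kd.p) = x (v, Kd.p) +
      (N v * f (v, Kd.q) + ml v * f (l v, Kd.q)) - (N v + ml v) * f (v, Kd.p) := by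
  unfold after
  rw [outdeg_p, Fintype.sum_prod_type]
  simp only [sum_kd, mult, Nat.cast_zero, zero_mul, zero_add, add_zero, Nat.cast_add, Nat.cast_ite, add_mul,
    ite_mul, Finset.sum_add_distrib, Finset.sum_ite_eq, Finset.sum_ite_eq', Finset.mem_univ, if_true]

theorem after_w (x : P × Kd → ℕ) (f : P × Kd → ℤ) (v : P) :
    after (mult l r ml mr N Z) x f (v, Kd.w) = x (v, Kd.w) + Z * f (v, Kd.q) - Z * f (v, Kd.w) := by
  unfold after
  rw [outdeg_w, Fintype.sum_prod_type]
  simp only [sum_kd, mult, Nat.cast_zero, zero_mul, zero_add, add_zero, Nat.cast_add, Nat.cast_ite, add_mul,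
    ite_mul, Finset.sum_add_distrib, Finset.sum_ite_eq, Finset.sum_ite_eq', Finset.mem_univ, if_true]

theorem after_q (hG : FlowGame G l r ml mr) (x : P × Kd → ℕ) (f : P × Kd → ℤ) (v : P) :
    after (mult l r ml mr N Z) x f (v, Kd.q) = x (v, Kd.q) +
      ((N v + ml v) * f (v, Kd.p) + mr v * f (r v, Kd.q) + Z * f (v, Kd.w)) -
        (N v + Z + (ml v + mr v)) * f (v, Kd.q) := by
  unfold after
  rw [outdeg_q N Z hG, Fintype.sum_prod_type]
  simp only [sum_kd, mult, Nat.cast_zero, zero_mul, zero_add, add_zero, Nat.cast_add, Nat.cast_ite, add_mul,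
    ite_mul, Finset.sum_add_distrib, Finset.sum_ite_eq, Finset.sum_ite_eq', Finset.mem_univ, if_true]

theorem eulerian (hG : FlowGame G l r ml mr) (hN : ∀ v, 0 < N v) (hZ : 0 < Z) :
    Eulerian (mult l r ml mr N Z) := by
  refine ⟨?_, ?_, ?_⟩
  · rintro ⟨v, k⟩
    cases k
    · rfl
    · simp only [mult]
      rw [if_neg]
      intro h
      exact G.irrefl v ((hG.moves v v).2 (Or.inr h.symm))
    · rfl
  · rintro ⟨v, k⟩
    have h1 : ∑ u, mult l r ml mr N Z (v, k) u = outdeg (mult l r ml mr N Z) (v, k) := rfl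
    rw [h1, Fintype.sum_prod_type]
    cases k
    · rw [outdeg_p]
      simp only [sum_kd, mult, zero_add, add_zero]
      rw [Finset.sum_add_distrib, Finset.sum_ite_eq', Finset.sum_ite_eq]
      simp
    · rw [outdeg_q N Z hG]
      simp only [sum_kd, mult]
      rw [Finset.sum_add_distrib, Finset.sum_add_distrib, Finset.sum_ite_eq', Finset.sum_ite_eq,
        Finset.sum_ite_eq']
      simp only [Finset.mem_univ, if_true]
      ring
    · rw [outdeg_w]
      simp only [sum_kd, mult, zero_add, add_zero]
      rw [Finset.sum_ite_eq']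
      simp
  · have hpq : ∀ v, Relation.EqvGen (fun a b => 0 < mult l r ml mr N Z a b) (v, Kd.p) (v, Kd.q) := by
      intro v
      refine Relation.EqvGen.rel _ _ ?_
      simp only [mult, if_true]
      have := hN v
      omega
    have hwq : ∀ v, Relation.EqvGen (fun a b => 0 < mult l r ml mr N Z a b) (v, Kd.w) (v, Kd.q) := by
      intro v
      refine Relation.EqvGen.rel _ _ ?_
      simp only [mult, if_true]
      exact hZ
    have hmove : ∀ v s, G.move v s →
        Relation.EqvGen (fun a b => 0 < mult l r ml mr N Z a b) (v, Kd.q) (s, Kd.q) := by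
      intro v s hs
      rcases (hG.moves v s).1 hs with rfl | rfl
      · refine Relation.EqvGen.trans _ (v, Kd.p) _ ((hpq v).symm _ _) ((Relation.EqvGen.rel _ _ ?_).symm _ _)
        simp only [mult, if_true]
        have := hG.posl v
        omega
      · refine (Relation.EqvGen.rel _ _ ?_).symm _ _
        simp only [mult, if_true]
        exact hG.posr v
    have hqq : ∀ u v, Relation.EqvGen (fun a b => 0 < mult l r ml mr N Z a b) (u, Kd.q) (v, Kd.q) := by
      intro u v
      obtain ⟨z, hz, t, ht⟩ := hG.strong u v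
      have key : ∀ t, Relation.EqvGen (fun a b => 0 < mult l r ml mr N Z a b) (u, Kd.q) (z t, Kd.q) := by
        intro t
        induction t with
        | zero => rw [hz.1]; exact Relation.EqvGen.refl _
        | succ t ih => exact ih.trans _ _ _ (hmove _ _ (hz.2 t))
      rw [← ht]
      exact key t
    have hall : ∀ (v : P) (k : Kd),
        Relation.EqvGen (fun a b => 0 < mult l r ml mr N Z a b) (v, k) (v, Kd.q) := by
      intro v k
      cases k
      · exact hpq v
      · exact Relation.EqvGen.refl _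
      · exact hwq v
    rintro ⟨u, k⟩ ⟨v, k'⟩
    exact (hall u k).trans _ _ _ ((hqq u v).trans _ _ _ ((hall v k').symm _ _))

end Pool.Agent.TH624.CG
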