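import Pool.Agent.TH624.CH

/-!
# Mean payoff games reduce to chip-firing halting on Eulerian multidigraphs
-/

set_option autoImplicit false

namespace Pool.Agent.TH624.CG

open Finset Pool.Agent.TH624.CF Pool.Agent.TH624.MPG

theorem omega_ge {Z t ω : ℤ} (hZ : 1 ≤ Z) (h3 : Z * t - Z * ω < Z) : t ≤ ω := by
  by_contra hcon
  rw [not_le] at hcon
  have : Z * 1 ≤ Z * (t - ω) := mul_le_mul_of_nonneg_left (by omega) (by omega)
  nlinarith

theorem max_gate {N ml mr Z a b t π ω cl cr S C : ℤ} (hml : 1 ≤ ml) (hmr : 1 ≤ mr) (hZ : 1 ≤ Z)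
    (hS : 0 ≤ S) (hC : 0 ≤ C) (hcl : -C ≤ cl) (hcr : -C ≤ cr) (ha : -S ≤ a - t) (hb : -S ≤ b - t)
    (hN : ml * (S + C + 1) ≤ N) (hN2 : mr * (S + C + 1) ≤ N)
    (h1 : (N + ml * cl) + (N * t + ml * a) - (N + ml) * π < N + ml)
    (h2 : ((N + ml) + Z + mr * cr) + ((N + ml) * π + mr * b + Z * ω) - (N + Z + (ml + mr)) * t <
      N + Z + (ml + mr))
    (h3 : Z * t - Z * ω < Z) : a + cl ≤ t ∧ b + cr ≤ t := by
  have hω := omega_ge hZ h3
  have hZω : 0 ≤ Z * (ω - t) := mul_nonneg (by omega) (by omega)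
  have hN0 : 0 ≤ N := le_trans (by positivity) hN
  have h1' : N * (t - π) + ml * (a - π + cl - 1) < 0 := by nlinarith
  have h2' : (N + ml) * (π - t) + Z * (ω - t) + mr * (b - t + cr - 1) < 0 := by nlinarith
  rcases lt_trichotomy π t with h | h | h
  · exfalso
    have e1 : N * 1 ≤ N * (t - π) := mul_le_mul_of_nonneg_left (by omega) hN0
    have e2 : ml * (-S - C) ≤ ml * (a - π + cl - 1) := mul_le_mul_of_nonneg_left (by omega) (by omega)
    nlinarith
  · subst h
    constructor
    · by_contra hcon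
      rw [not_le] at hcon
      have : 0 ≤ ml * (a - π + cl - 1) := mul_nonneg (by omega) (by omega)
      nlinarith
    · by_contra hcon
      rw [not_le] at hcon
      have : 0 ≤ mr * (b - π + cr - 1) := mul_nonneg (by omega) (by omega)
      nlinarith
  · exfalso
    have e1 : (N + ml) * 1 ≤ (N + ml) * (π - t) := mul_le_mul_of_nonneg_left (by omega) (by omega)
    have e2 : mr * (-S - C - 1) ≤ mr * (b - t + cr - 1) := mul_le_mul_of_nonneg_left (by omega) (by omega)
    nlinarith

theorem min_gate {N ml mr Z a b t π ω cl cr : ℤ} (hml : 1 ≤ ml) (hmr : 1 ≤ mr) (hZ : 1 ≤ Z)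
    (hN0 : 0 ≤ N)
    (h1 : (N + ml * cl) + (N * t + ml * a) - (N + ml) * π < N + ml)
    (h2 : (0 + Z + mr * cr) + ((N + ml) * π + mr * b + Z * ω) - (N + Z + (ml + mr)) * t <
      N + Z + (ml + mr))
    (h3 : Z * t - Z * ω < Z) : a + cl ≤ t ∨ b + cr ≤ t := by
  have hω := omega_ge hZ h3
  have hZω : 0 ≤ Z * (ω - t) := mul_nonneg (by omega) (by omega)
  have h1' : N * (t - π) + ml * (a - π + cl - 1) < 0 := by nlinarith
  have h2' : (N + ml) * (π - t - 1) + Z * (ω - t) + mr * (b - t + cr - 1) < 0 := by nlinarith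
  by_contra hcon
  rw [not_or, not_le, not_le] at hcon
  rcases le_or_gt π t with h | h
  · have e1 : 0 ≤ N * (t - π) := mul_nonneg hN0 (by omega)
    have e2 : 0 ≤ ml * (a - π + cl - 1) := mul_nonneg (by omega) (by omega)
    linarith
  · have e1 : 0 ≤ (N + ml) * (π - t - 1) := mul_nonneg (by omega) (by omega)
    have e2 : 0 ≤ mr * (b - t + cr - 1) := mul_nonneg (by omega) (by omega)
    linarith

theorem sum_gate {N ml mr Z a b t π ω cl cr C y : ℤ} (hml : 1 ≤ ml) (hmr : 1 ≤ mr) (hZ : 1 ≤ Z)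
    (hcl : -C ≤ cl) (hcr : -C ≤ cr)
    (h1 : (N + ml * cl) + (N * t + ml * a) - (N + ml) * π < N + ml)
    (h2 : (y + Z + mr * cr) + ((N + ml) * π + mr * b + Z * ω) - (N + Z + (ml + mr)) * t <
      N + Z + (ml + mr))
    (h3 : Z * t - Z * ω < Z) :
    ml * (a - t) + mr * (b - t) ≤ (N + ml - y) + (ml + mr) * (1 + C) := by
  have hω := omega_ge hZ h3
  have hZω : 0 ≤ Z * (ω - t) := mul_nonneg (by omega) (by omega)
  have e1 : ml * (-C) ≤ ml * cl := mul_le_mul_of_nonneg_left hcl (by omega)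
  have e2 : mr * (-C) ≤ mr * cr := mul_le_mul_of_nonneg_left hcr (by omega)
  nlinarith

variable {P : Type} [Fintype P] [DecidableEq P] {G : Game P} {l r : P → P} {ml mr : P → ℕ}

/-- potentials give a strategy of the minimizer -/
theorem minSecures_of_potential (hG : FlowGame G l r ml mr) (t : P → ℤ)
    (hmax : ∀ v, G.max v → t (l v) + G.c' v (l v) ≤ t v ∧ t (r v) + G.c' v (r v) ≤ t v)
    (hmin : ∀ v, ¬ G.max v → t (l v) + G.c' v (l v) ≤ t v ∨ t (r v) + G.c' v (r v) ≤ t v) (v : P) :
    G.MinSecures v := by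
  classical
  refine ⟨fun p => if t (l p) + G.c' p (l p) ≤ t p then l p else r p, ?_, ?_⟩
  · intro p
    rw [hG.moves]
    by_cases h : t (l p) + G.c' p (l p) ≤ t p <;> simp [h]
  · intro z hz hcons i j hij hj hzij
    have hstep : ∀ k, G.c' (z k) (z (k + 1)) ≤ t (z k) - t (z (k + 1)) := by
      intro k
      by_cases hm : G.max (z k)
      · have h1 := hmax (z k) hm
        rcases (hG.moves _ _).1 (hz.2 k) with h | h
        · rw [h]; linarith [h1.1]
        · rw [h]; linarith [h1.2]
      · have h1 := hcons k hm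
        rw [h1]
        by_cases h : t (l (z k)) + G.c' (z k) (l (z k)) ≤ t (z k)
        · simp only [h, if_true]; linarith
        · simp only [h, if_false]
          rcases hmin (z k) hm with h2 | h2
          · exact absurd h2 h
          · linarith
    have h2 := Finset.sum_le_sum (s := Finset.Ico i j) fun k _ => hstep k
    rw [payoff' z i j hij.le, sum_tele (fun k => t (z k)) i j hij.le, hzij] at h2
    have h6 : (i : ℤ) < j := by exact_mod_cast hij
    by_contra hcon
    rw [not_lt] at hcon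
    have h5 : (0 : ℤ) ≤ (Fintype.card P + 1) * G.payoff z i j := by positivity
    linarith

/-- bound of the modified payoffs -/
def cb (n C : ℕ) : ℕ := 2 * ((n + 1) * C + 1)

/-- total of the circulation -/
def total (ml mr : P → ℕ) : ℕ := ∑ v, (ml v + mr v)

/-- multiplicity at the positions of the minimizer -/
def nMin (ml mr : P → ℕ) (C : ℕ) : ℕ :=
  total ml mr * (Fintype.card P * cb (Fintype.card P) C + cb (Fintype.card P) C + 1) + 1

/-- bound of the differences of the numbers of firings -/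
def spreadBound (ml mr : P → ℕ) (C : ℕ) : ℕ :=
  2 * Fintype.card P ^ 3 * (nMin ml mr C + total ml mr * (2 + cb (Fintype.card P) C))

/-- multiplicity at the positions of the maximizer -/
def nMax (ml mr : P → ℕ) (C : ℕ) : ℕ :=
  total ml mr * (spreadBound ml mr C + cb (Fintype.card P) C + 1) + 1

open Classical in
/-- the large multiplicities -/
noncomputable def bigN (G : Game P) (ml mr : P → ℕ) (C : ℕ) (v : P) : ℕ :=
  if G.max v then nMax ml mr C else nMin ml mr C

/-- the multiplicity between `q` and `w` -/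
def bigZ (ml mr : P → ℕ) (C : ℕ) : ℕ := total ml mr * cb (Fintype.card P) C + 1

theorem le_totalSum (v : P) : ml v + mr v ≤ total ml mr :=
  Finset.single_le_sum (f := fun v => ml v + mr v) (fun _ _ => Nat.zero_le _) (Finset.mem_univ v)

theorem c'_bound (C : ℕ) (hC : ∀ p q, G.move p q → |G.c p q| ≤ C) (p q : P) (h : G.move p q) :
    |G.c' p q| ≤ (cb (Fintype.card P) C : ℕ) := by
  have h1 := abs_le.1 (hC p q h)
  rw [abs_le]
  unfold Game.c' cb
  push_cast
  constructor <;> nlinarith [h1.1, h1.2, (Nat.cast_nonneg (Fintype.card P) : (0 : ℤ) ≤ Fintype.card P)]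

theorem bigN_ge (C : ℕ) (v : P) : total ml mr * cb (Fintype.card P) C + 1 ≤ bigN G ml mr C v := by
  unfold bigN
  split_ifs
  · unfold nMax
    have : total ml mr * cb (Fintype.card P) C ≤
      total ml mr * (spreadBound ml mr C + cb (Fintype.card P) C + 1) := Nat.mul_le_mul_left _ (by omega)
    omega
  · unfold nMin
    have : total ml mr * cb (Fintype.card P) C ≤
      total ml mr * (Fintype.card P * cb (Fintype.card P) C + cb (Fintype.card P) C + 1) :=
        Nat.mul_le_mul_left _ (by omega)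
    omega

theorem config_p (hG : FlowGame G l r ml mr) (C : ℕ) (hC : ∀ p q, G.move p q → |G.c p q| ≤ C) (v : P) :
    ((config G l r ml mr (bigN G ml mr C) (bigZ ml mr C) (v, Kd.p) : ℕ) : ℤ) =
      bigN G ml mr C v + ml v * G.c' v (l v) := by
  have hb := (abs_le.1 (c'_bound (G := G) C hC v (l v) ((hG.moves _ _).2 (Or.inl rfl)))).1
  have h1 : ml v * cb (Fintype.card P) C ≤ total ml mr * cb (Fintype.card P) C :=
    Nat.mul_le_mul_right _ (by have := le_totalSum (ml := ml) (mr := mr) v; omega)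
  have h2 := bigN_ge (G := G) (ml := ml) (mr := mr) C v
  have h3 : (ml v : ℤ) * -((cb (Fintype.card P) C : ℕ) : ℤ) ≤ ml v * G.c' v (l v) :=
    mul_le_mul_of_nonneg_left hb (by positivity)
  zify at h1 h2
  show ((((bigN G ml mr C v : ℕ) : ℤ) + ml v * G.c' v (l v)).toNat : ℤ) = _
  rw [Int.toNat_of_nonneg]
  linarith

open Classical in
theorem config_q (hG : FlowGame G l r ml mr) (C : ℕ) (hC : ∀ p q, G.move p q → |G.c p q| ≤ C) (v : P) :
    ((config G l r ml mr (bigN G ml mr C) (bigZ ml mr C) (v, Kd.q) : ℕ) : ℤ) =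
      (if G.max v then ((bigN G ml mr C v : ℤ) + ml v) else 0) + bigZ ml mr C + mr v * G.c' v (r v) := by
  have hb := (abs_le.1 (c'_bound (G := G) C hC v (r v) ((hG.moves _ _).2 (Or.inr rfl)))).1
  have h1 : mr v * cb (Fintype.card P) C ≤ total ml mr * cb (Fintype.card P) C :=
    Nat.mul_le_mul_right _ (by have := le_totalSum (ml := ml) (mr := mr) v; omega)
  have h2 : total ml mr * cb (Fintype.card P) C + 1 ≤ bigZ ml mr C := le_refl _
  have h3 : (mr v : ℤ) * -((cb (Fintype.card P) C : ℕ) : ℤ) ≤ mr v * G.c' v (r v) :=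
    mul_le_mul_of_nonneg_left hb (by positivity)
  have h4 : (0 : ℤ) ≤ (if G.max v then ((bigN G ml mr C v : ℤ) + ml v) else 0) := by
    split_ifs <;> positivity
  zify at h1 h2
  show ((((if G.max v then ((bigN G ml mr C v : ℤ) + ml v) else 0) + ((bigZ ml mr C : ℕ) : ℤ) +
    mr v * G.c' v (r v)).toNat : ℕ) : ℤ) = _
  rw [Int.toNat_of_nonneg]
  linarith

end Pool.Agent.TH624.CG
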