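import Pool.Agent.TH624.CI

/-!
# Mean payoff games reduce to chip-firing halting on Eulerian multidigraphs: the theorem
-/

set_option autoImplicit false

namespace Pool.Agent.TH624.CG

open Finset Pool.Agent.TH624.CF Pool.Agent.TH624.MPG

variable {P : Type} [Fintype P] [DecidableEq P] {G : Game P} {l r : P → P} {ml mr : P → ℕ}

theorem bigN_max {C : ℕ} {v : P} (h : G.max v) : bigN G ml mr C v = nMax ml mr C := by
  unfold bigN; rw [if_pos h]

theorem bigN_min {C : ℕ} {v : P} (h : ¬ G.max v) : bigN G ml mr C v = nMin ml mr C := by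
  unfold bigN; rw [if_neg h]

theorem forward (hG : FlowGame G l r ml mr) (C : ℕ) (hC : ∀ p q, G.move p q → |G.c p q| ≤ C)
    (f : P × Kd → ℤ)
    (hf : ∀ x, after (mult l r ml mr (bigN G ml mr C) (bigZ ml mr C))
      (config G l r ml mr (bigN G ml mr C) (bigZ ml mr C)) f x <
        outdeg (mult l r ml mr (bigN G ml mr C) (bigZ ml mr C)) x) (v : P) : G.MinWins v := by
  classical
  set t : P → ℤ := fun v => f (v, Kd.q) with ht
  set K : ℕ := cb (Fintype.card P) C with hK
  have hZ : (1 : ℤ) ≤ (bigZ ml mr C : ℕ) := by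
    have : 1 ≤ bigZ ml mr C := by unfold bigZ; omega
    exact_mod_cast this
  have hml : ∀ v, (1 : ℤ) ≤ (ml v : ℕ) := fun v => by exact_mod_cast hG.posl v
  have hmr : ∀ v, (1 : ℤ) ≤ (mr v : ℕ) := fun v => by exact_mod_cast hG.posr v
  have hcl : ∀ v, -((K : ℕ) : ℤ) ≤ G.c' v (l v) := fun v =>
    (abs_le.1 (c'_bound (G := G) C hC v (l v) ((hG.moves _ _).2 (Or.inl rfl)))).1
  have hcr : ∀ v, -((K : ℕ) : ℤ) ≤ G.c' v (r v) := fun v =>
    (abs_le.1 (c'_bound (G := G) C hC v (r v) ((hG.moves _ _).2 (Or.inr rfl)))).1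
  have h1 : ∀ v, ((bigN G ml mr C v : ℤ) + ml v * G.c' v (l v)) +
      (bigN G ml mr C v * t v + ml v * t (l v)) - (bigN G ml mr C v + ml v) * f (v, Kd.p) <
        bigN G ml mr C v + ml v := by
    intro v
    have := hf (v, Kd.p)
    rw [after_p, outdeg_p, config_p hG C hC] at this
    push_cast at this
    exact this
  have h2 : ∀ v, ((if G.max v then ((bigN G ml mr C v : ℤ) + ml v) else 0) + bigZ ml mr C +
      mr v * G.c' v (r v)) + ((bigN G ml mr C v + ml v) * f (v, Kd.p) + mr v * t (r v) +
        bigZ ml mr C * f (v, Kd.w)) - (bigN G ml mr C v + bigZ ml mr C + (ml v + mr v)) * t v <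
        bigN G ml mr C v + bigZ ml mr C + (ml v + mr v) := by
    intro v
    have := hf (v, Kd.q)
    rw [after_q _ _ hG, outdeg_q _ _ hG, config_q hG C hC] at this
    push_cast at this
    exact this
  have h3 : ∀ v, (bigZ ml mr C : ℤ) * t v - bigZ ml mr C * f (v, Kd.w) < bigZ ml mr C := by
    intro v
    have := hf (v, Kd.w)
    rw [after_w, outdeg_w] at this
    have h0 : ((config G l r ml mr (bigN G ml mr C) (bigZ ml mr C) (v, Kd.w) : ℕ) : ℤ) = 0 := rfl
    rw [h0, zero_add] at this
    exact this
  -- the spread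
  set σ : ℤ := ((nMin ml mr C + total ml mr * (2 + K) : ℕ) : ℤ) with hσ
  have hg : ∀ v, (ml v : ℤ) * (t (l v) - t v) + mr v * (t (r v) - t v) ≤ σ := by
    intro v
    have h4 := sum_gate (C := (K : ℤ)) (hml v) (hmr v) hZ (hcl v) (hcr v) (h1 v) (h2 v) (h3 v)
    refine h4.trans ?_
    have h5 : ((ml v : ℤ) + mr v) ≤ total ml mr := by
      exact_mod_cast le_totalSum (ml := ml) (mr := mr) v
    have h6 : ((ml v : ℤ) + mr v) * (1 + K) ≤ total ml mr * (1 + K) :=
      mul_le_mul_of_nonneg_right h5 (by positivity)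
    rw [hσ]
    push_cast
    by_cases hm : G.max v
    · rw [if_pos hm]
      have h7 : (0 : ℤ) ≤ nMin ml mr C := by positivity
      have h8 : (0 : ℤ) ≤ total ml mr := by positivity
      nlinarith
    · rw [if_neg hm, bigN_min hm]
      have h8 : (ml v : ℤ) ≤ total ml mr := by have := hmr v; linarith
      nlinarith
  have hspread : ∀ u v, t u - t v ≤ (spreadBound ml mr C : ℕ) := by
    intro u v
    have := spread hG t σ (by positivity) hg u v
    rw [hσ] at this
    unfold spreadBound
    push_cast at this ⊢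
    exact this
  refine minWins_of_secures C hC v (minSecures_of_potential hG t ?_ ?_ v)
  · intro v hm
    have h2' := h2 v
    rw [if_pos hm] at h2'
    have hN : ∀ m : ℤ, m ≤ total ml mr →
        m * ((spreadBound ml mr C : ℕ) + K + 1) ≤ (bigN G ml mr C v : ℤ) := by
      intro m hm'
      rw [bigN_max hm]
      unfold nMax
      push_cast
      have : m * ((spreadBound ml mr C : ℤ) + K + 1) ≤ total ml mr * ((spreadBound ml mr C : ℤ) + K + 1) :=
        mul_le_mul_of_nonneg_right hm' (by positivity)
      linarith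
    have h5 : ((ml v : ℤ) + mr v) ≤ total ml mr := by
      exact_mod_cast le_totalSum (ml := ml) (mr := mr) v
    have e1 := hml v
    have e2 := hmr v
    have e3 := hspread v (l v)
    have e4 := hspread v (r v)
    have := max_gate (S := (spreadBound ml mr C : ℕ)) (C := (K : ℤ)) (hml v) (hmr v) hZ (by positivity)
      (by positivity) (hcl v) (hcr v) (by linarith) (by linarith) (hN _ (by linarith))
      (hN _ (by linarith)) (h1 v) h2' (h3 v)
    exact this
  · intro v hm
    have h2' := h2 v
    rw [if_neg hm] at h2'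
    exact min_gate (hml v) (hmr v) hZ (by positivity) (h1 v) h2' (h3 v)

theorem backward (hG : FlowGame G l r ml mr) (C : ℕ) (hC : ∀ p q, G.move p q → |G.c p q| ≤ C)
    (hwin : ∀ v, G.MinWins v) :
    ∃ f : P × Kd → ℤ, ∀ x, after (mult l r ml mr (bigN G ml mr C) (bigZ ml mr C))
      (config G l r ml mr (bigN G ml mr C) (bigZ ml mr C)) f x <
        outdeg (mult l r ml mr (bigN G ml mr C) (bigZ ml mr C)) x := by
  classical
  set n : ℕ := Fintype.card P with hn
  set K : ℕ := cb n C with hK
  have hc : ∀ p q, G.move p q → |G.c' p q| ≤ ((K : ℕ) : ℤ) := fun p q h => c'_bound (G := G) C hC p q h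
  obtain ⟨h, hh⟩ := exists_truncated hG (level n C)
  have hW : ((level n C : ℕ) : ℤ) = 2 * (n * K) + 2 := by
    unfold level
    rw [hK]
    unfold cb
    push_cast
    rfl
  have hle : ∀ v, h v ≤ n * K := by
    intro v
    by_contra hcon
    rw [not_le] at hcon
    exact not_both v (maxWins_of_secures C hC v
      (maxSecures_of_le (by positivity) hc hh v (by rw [← hn]; exact hcon))) (hwin v)
  have hnK : (0 : ℤ) ≤ n * K := by positivity
  have key : ∀ p q, min ((level n C : ℕ) : ℤ) (h q + G.c' p q) ≤ h p → h q + G.c' p q ≤ h p := by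
    intro p q hpq
    rcases min_le_iff.1 hpq with h1 | h1
    · have := hle p
      rw [hW] at h1
      linarith
    · exact h1
  have hml : ∀ v, (1 : ℤ) ≤ (ml v : ℕ) := fun v => by exact_mod_cast hG.posl v
  have hmr : ∀ v, (1 : ℤ) ≤ (mr v : ℕ) := fun v => by exact_mod_cast hG.posr v
  have hZ : (1 : ℤ) ≤ (bigZ ml mr C : ℕ) := by
    have : 1 ≤ bigZ ml mr C := by unfold bigZ; omega
    exact_mod_cast this
  let good : P → Prop := fun v => G.max v ∨ h (l v) + G.c' v (l v) ≤ h v
  let f : P × Kd → ℤ := fun x => match x with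
    | (v, Kd.p) => h v + if good v then 0 else 1
    | (v, Kd.q) => h v
    | (v, Kd.w) => h v
  have hleft : ∀ v, good v → h (l v) + G.c' v (l v) ≤ h v := by
    intro v hv
    rcases hv with hm | hm
    · exact key _ _ (hh.max_ge v (l v) hm ((hG.moves _ _).2 (Or.inl rfl)))
    · exact hm
  have hright : ∀ v, (G.max v ∨ ¬ good v) → h (r v) + G.c' v (r v) ≤ h v := by
    intro v hv
    by_cases hm : G.max v
    · exact key _ _ (hh.max_ge v (r v) hm ((hG.moves _ _).2 (Or.inr rfl)))
    · rcases hv with hv | hv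
      · exact absurd hv hm
      · obtain ⟨q, hq, h1⟩ := hh.min_ge v hm
        have h2 := key _ _ h1
        rcases (hG.moves _ _).1 hq with rfl | rfl
        · exact absurd (Or.inr h2) hv
        · exact h2
  have h5 : ∀ v, ((ml v : ℤ) + mr v) ≤ total ml mr := fun v => by
    exact_mod_cast le_totalSum (ml := ml) (mr := mr) v
  have hNmin : ∀ v (m : ℤ), ¬ G.max v → m ≤ total ml mr → 0 ≤ m →
      m * (n * K + K + 1) + 1 ≤ (bigN G ml mr C v : ℤ) := by
    intro v m hm hm' h0
    rw [bigN_min hm]
    unfold nMin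
    push_cast
    have : m * ((n : ℤ) * K + K + 1) ≤ total ml mr * ((n : ℤ) * K + K + 1) :=
      mul_le_mul_of_nonneg_right hm' (by positivity)
    linarith
  refine ⟨f, ?_⟩
  rintro ⟨v, k⟩
  cases k
  · rw [after_p, outdeg_p, config_p hG C hC]
    push_cast
    show ((bigN G ml mr C v : ℤ) + ml v * G.c' v (l v)) +
      (bigN G ml mr C v * h v + ml v * h (l v)) -
        (bigN G ml mr C v + ml v) * (h v + if good v then 0 else 1) < bigN G ml mr C v + ml v
    by_cases hv : good v
    · rw [if_pos hv]
      have e1 := hleft v hv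
      have e2 : (ml v : ℤ) * (h (l v) + G.c' v (l v)) ≤ ml v * h v :=
        mul_le_mul_of_nonneg_left e1 (by positivity)
      have := hml v
      nlinarith
    · rw [if_neg hv]
      have hm : ¬ G.max v := fun hm => hv (Or.inl hm)
      have e1 := hNmin v (ml v) hm (by have := h5 v; have := hmr v; linarith) (by positivity)
      have e2 := (abs_le.1 (hc v (l v) ((hG.moves _ _).2 (Or.inl rfl)))).2
      have e3 := hle (l v)
      have e4 := hh.nonneg v
      have e5 : (ml v : ℤ) * (h (l v) + G.c' v (l v) - h v) ≤ ml v * (n * K + K + 1) :=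
        mul_le_mul_of_nonneg_left (by linarith) (by positivity)
      have := hml v
      nlinarith
  · rw [after_q _ _ hG, outdeg_q _ _ hG, config_q hG C hC]
    push_cast
    show ((if G.max v then ((bigN G ml mr C v : ℤ) + ml v) else 0) + bigZ ml mr C +
      mr v * G.c' v (r v)) + ((bigN G ml mr C v + ml v) * (h v + if good v then 0 else 1) +
        mr v * h (r v) + bigZ ml mr C * h v) -
          (bigN G ml mr C v + bigZ ml mr C + (ml v + mr v)) * h v <
        bigN G ml mr C v + bigZ ml mr C + (ml v + mr v)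
    by_cases hm : G.max v
    · have hv : good v := Or.inl hm
      rw [if_pos hm, if_pos hv]
      have e1 := hright v (Or.inl hm)
      have e2 : (mr v : ℤ) * (h (r v) + G.c' v (r v)) ≤ mr v * h v :=
        mul_le_mul_of_nonneg_left e1 (by positivity)
      have := hmr v
      nlinarith
    · rw [if_neg hm]
      by_cases hv : good v
      · rw [if_pos hv]
        have e1 := hNmin v (mr v) hm (by have := h5 v; have := hml v; linarith) (by positivity)
        have e2 := (abs_le.1 (hc v (r v) ((hG.moves _ _).2 (Or.inr rfl)))).2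
        have e3 := hle (r v)
        have e4 := hh.nonneg v
        have e5 : (mr v : ℤ) * (h (r v) + G.c' v (r v) - h v) ≤ mr v * (n * K + K + 1) :=
          mul_le_mul_of_nonneg_left (by linarith) (by positivity)
        have := hmr v
        have := hml v
        nlinarith
      · rw [if_neg hv]
        have e1 := hright v (Or.inr hv)
        have e2 : (mr v : ℤ) * (h (r v) + G.c' v (r v)) ≤ mr v * h v :=
          mul_le_mul_of_nonneg_left e1 (by positivity)
        have := hmr v
        nlinarith
  · rw [after_w, outdeg_w]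
    have h0 : ((config G l r ml mr (bigN G ml mr C) (bigZ ml mr C) (v, Kd.w) : ℕ) : ℤ) = 0 := rfl
    rw [h0]
    show (0 : ℤ) + bigZ ml mr C * h v - bigZ ml mr C * h v < bigZ ml mr C
    linarith

/-- the games are determined -/
theorem determined (hG : FlowGame G l r ml mr) (C : ℕ) (hC : ∀ p q, G.move p q → |G.c p q| ≤ C) (v : P) :
    G.MaxWins v ∨ G.MinWins v := by
  set n : ℕ := Fintype.card P with hn
  set K : ℕ := cb n C with hK
  have hc : ∀ p q, G.move p q → |G.c' p q| ≤ ((K : ℕ) : ℤ) := fun p q h => c'_bound (G := G) C hC p q h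
  obtain ⟨h, hh⟩ := exists_truncated hG (level n C)
  have hW : ((level n C : ℕ) : ℤ) = 2 * (n * K) + 2 := by
    unfold level
    rw [hK]
    unfold cb
    push_cast
    rfl
  rcases lt_or_ge ((n : ℤ) * K) (h v) with h1 | h1
  · exact Or.inl (maxWins_of_secures C hC v
      (maxSecures_of_le (by positivity) hc hh v (by rw [← hn]; exact h1)))
  · exact Or.inr (minWins_of_secures C hC v
      (minSecures_of_le (by positivity) hc hh v (by rw [← hn, hW]; linarith)))

/-- the number of vertices -/
theorem card_vertices : Fintype.card (P × Kd) = 3 * Fintype.card P := by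
  rw [Fintype.card_prod, mul_comm]
  rfl

/-- **Theorem.** -/
theorem terminates_iff_minWins (hG : FlowGame G l r ml mr) (C : ℕ)
    (hC : ∀ p q, G.move p q → |G.c p q| ≤ C) :
    Eulerian (mult l r ml mr (bigN G ml mr C) (bigZ ml mr C)) ∧
    (Terminates (mult l r ml mr (bigN G ml mr C) (bigZ ml mr C))
      (config G l r ml mr (bigN G ml mr C) (bigZ ml mr C)) ↔ ∀ v, G.MinWins v) := by
  have hE : Eulerian (mult l r ml mr (bigN G ml mr C) (bigZ ml mr C)) :=
    eulerian _ _ hG (fun v => by have := bigN_ge (G := G) (ml := ml) (mr := mr) C v; omega)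
      (by unfold bigZ; omega)
  refine ⟨hE, ?_⟩
  rw [terminates_iff _ hE]
  constructor
  · rintro ⟨f, hf⟩ v
    exact forward hG C hC f hf v
  · intro h
    exact backward hG C hC h

end Pool.Agent.TH624.CG
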